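import Pool.Agent.N203.RE.Defs
import Pool.Agent.Y114.TF.Defs

/-!
# Type A, and primes with Frobenius tori of maximal rank: definitions
-/

set_option autoImplicit false

namespace Pool.Agent.Helper49B

open NumberField IsDedekindDomain Module Polynomial TensorProduct Filter Pool.Agent.Y114.RM
  Pool.Agent.Y114.GF Pool.Agent.Y114.TF Pool.Agent.R931.IR Pool.Agent.N203.RE

/-- A product of algebras of complex matrices. -/
abbrev MatrixProduct {J : ℕ} (N : Fin J → ℕ) : Type := ∀ j, Matrix (Fin (N j)) (Fin (N j)) ℂ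

section maps

variable {V : Type} [AddCommGroup V] [Module ℂ V] {J : ℕ} {N : Fin J → ℕ}
  (G : Submodule ℂ (End ℂ V)) (f : End ℂ V →ₗ[ℂ] MatrixProduct N)

/-- `f` is a homomorphism of Lie algebras on `G`. -/
def IsLieMap : Prop := ∀ X ∈ G, ∀ Y ∈ G, f (X * Y - Y * X) = f X * f Y - f Y * f X

/-- The elements of `G` in the kernel of `f` are central in `G`. -/
def CentralKernel : Prop := ∀ X ∈ G, f X = 0 → ∀ Y ∈ G, X * Y = Y * X

/-- The image of `G` contains all families of matrices with trace zero. -/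
def ContainsTraceZero : Prop :=
  ∀ A : MatrixProduct N, (∀ j, (A j).trace = 0) → ∃ X ∈ G, f X = A

end maps

/-- `𝔤` is of type A: there are matrix sizes `N j` and a homomorphism of Lie algebras `f` from `𝔤 ⊗ ℂ`
to the product of the algebras of complex matrices of size `N j`, whose kernel is contained in the
center of `𝔤 ⊗ ℂ`, and whose image contains all families of matrices with trace zero. -/
def TypeA {H : Type} [AddCommGroup H] [Module ℚ H] (𝔤 : Submodule ℚ (End ℚ H)) : Prop :=
  ∃ (J : ℕ) (N : Fin J → ℕ) (f : End ℂ (ℂ ⊗[ℚ] H) →ₗ[ℂ] MatrixProduct N),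
    IsLieMap (bcS ℂ 𝔤) f ∧ CentralKernel (bcS ℂ 𝔤) f ∧ ContainsTraceZero (bcS ℂ 𝔤) f

/-- At a place above `p` there are `r` multiplicatively independent Frobenius eigenvalues. -/
def MaxRank {ι : Type} (P : HeightOneSpectrum (𝓞 ℚ) → ι → ℚ[X]) (r p : ℕ) : Prop :=
  ∃ v, Above v p ∧ IndepRoots r (Set.range (P v))

/-- More than half of the prime numbers have the property `A`: the upper density of this set of prime
numbers is greater than `1 / 2`. -/
def MoreThanHalf (A : ℕ → Prop) : Prop :=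
  ∃ δ : ℝ, 1 / 2 < δ ∧ ∃ᶠ N : ℕ in atTop, δ ≤ proportion A N

/-- Every coset of every open subgroup contains an element with `r` multiplicatively independent
eigenvalues. -/
def GenericElements {Γ : Type} [Group Γ] [TopologicalSpace Γ] {ι : Type} {n : ι → ℕ} {ℓ : ℕ}
    [Fact ℓ.Prime] (ρ : Reps Γ n ℓ) (r : ℕ) : Prop :=
  ∀ Δ : Subgroup Γ, IsOpen (Δ : Set Γ) → ∀ γ : Γ, ∃ δ ∈ Δ, IndependentEigenvalues ρ (γ * δ) r

/-- The elements of `𝔥` which commute with `𝔥` act by a scalar on each summand. -/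
def CentralScalars {k : Type} [Field k] {ι : Type} {V : ι → Type} [∀ i, AddCommGroup (V i)]
    [∀ i, Module k (V i)] (𝔥 : Submodule k (End k (∀ i, V i))) : Prop :=
  ∀ Z ∈ 𝔥, (∀ X ∈ 𝔥, X * Z = Z * X) → ∃ c : ι → k, ∀ x i, Z x i = c i • x i

section realizations

variable {Γ : Type} [Group Γ] {ι : Type} {n : ι → ℕ}

/-- Many Frobenius elements have `r` multiplicatively independent eigenvalues: this is so at more than
half of the primes, or the Frobenius eigenvalues are integral (up to a fixed power of the norm) and for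
some prime number `ℓ₀` every coset of every open subgroup contains an element with `r`
multiplicatively independent eigenvalues on the `ℓ₀`-adic realization. -/
def ManyMaximalTori [TopologicalSpace Γ] (S : Set (HeightOneSpectrum (𝓞 ℚ)))
    (P : HeightOneSpectrum (𝓞 ℚ) → ι → ℚ[X]) (ρ : ∀ (ℓ : ℕ) [Fact ℓ.Prime], Reps Γ n ℓ) (r : ℕ) :
    Prop :=
  MoreThanHalf (MaxRank P r) ∨
    ∃ (c ℓ₀ : ℕ) (_ : Fact ℓ₀.Prime), IntegralOutside S P c ∧ GenericElements (ρ ℓ₀) r

/-- The Lie algebra of the endomorphisms which kill all Tate tensors is a reductive subalgebra of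
`𝔤 ⊗ ℚ_ℓ` of rank at least `r`, and its center acts by scalars on the summands. -/
def CenterTheorem {ℓ : ℕ} [Fact ℓ.Prime] (ρ : Reps Γ n ℓ) (𝔤 : Submodule ℚ (End ℚ (Betti n)))
    (r : ℕ) : Prop :=
  ∃ 𝔥 : EndSpace n ℓ, KillsTateTensors ρ 𝔥 ∧ ReductiveOfRank (scalars ℓ 𝔤) 𝔥 r ∧
    CentralScalars (k := ℚ_[ℓ]) (V := fun i => Fin (n i) → ℚ_[ℓ]) 𝔥

end realizations

end Pool.Agent.Helper49B
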