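import Pool.Agent.Helper49B.TypeA2
import Pool.Agent.Helper49B.Defs
import Pool.Agent.N203.RE.Ext

/-!
# Type A over the `ℓ`-adic numbers
-/

set_option autoImplicit false
set_option linter.unusedSectionVars false

namespace Pool.Agent.Helper49B

open Module TensorProduct Pool.Agent.Y114.RM Pool.Agent.N203.RE

section tr

variable {ι : Type} [Fintype ι] [DecidableEq ι] {n : ι → ℕ} (ℓ : ℕ) [Fact ℓ.Prime]
  [Algebra ℚ_[ℓ] ℂ]

/-- the comparison over the complex numbers -/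
noncomputable def ec : ℂ ⊗[ℚ_[ℓ]] (∀ i, Fin (n i) → ℚ_[ℓ]) ≃ₗ[ℂ] ℂ ⊗[ℚ] (Betti n) :=
  ((ee (n := n) ℓ).symm.baseChange ℚ_[ℓ] ℂ _ _) ≪≫ₗ
    TensorProduct.AlgebraTensorModule.cancelBaseChange ℚ ℚ_[ℓ] ℂ ℂ (Betti n)

theorem ec_tmul (c : ℂ) (x : Betti n) : ec ℓ (c ⊗ₜ[ℚ_[ℓ]] toLadic ℓ x) = c ⊗ₜ[ℚ] x := by
  rw [← ee_one]
  simp [ec]

theorem ec_conj {X : End ℚ (Betti n)} {Y : End ℚ_[ℓ] (∀ i, Fin (n i) → ℚ_[ℓ])}
    (h : Extends X Y) : (ec ℓ).conj (Y.baseChange ℂ) = X.baseChange ℂ := by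
  refine TensorProduct.AlgebraTensorModule.curry_injective ?_
  ext1
  refine LinearMap.ext fun x => ?_
  change (ec ℓ).conj (Y.baseChange ℂ) ((1 : ℂ) ⊗ₜ[ℚ] x) = X.baseChange ℂ ((1 : ℂ) ⊗ₜ[ℚ] x)
  have h1 : (ec (n := n) ℓ).symm ((1 : ℂ) ⊗ₜ[ℚ] x) = (1 : ℂ) ⊗ₜ[ℚ_[ℓ]] toLadic ℓ x := by
    rw [LinearEquiv.symm_apply_eq, ec_tmul]
  rw [LinearEquiv.conj_apply_apply, h1, LinearMap.baseChange_tmul, LinearMap.baseChange_tmul, h x,
    ec_tmul]

theorem ec_conj_mul (A B : End ℂ (ℂ ⊗[ℚ_[ℓ]] (∀ i, Fin (n i) → ℚ_[ℓ]))) :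
    (ec ℓ).conj (A * B) = (ec ℓ).conj A * (ec ℓ).conj B := by
  refine LinearMap.ext fun y => ?_
  rw [Module.End.mul_apply, LinearEquiv.conj_apply_apply, LinearEquiv.conj_apply_apply,
    LinearEquiv.conj_apply_apply, LinearEquiv.symm_apply_apply, Module.End.mul_apply]

theorem mem_ec {𝔤 : Submodule ℚ (End ℚ (Betti n))}
    (Z : End ℂ (ℂ ⊗[ℚ_[ℓ]] (∀ i, Fin (n i) → ℚ_[ℓ]))) :
    (ec ℓ).conj Z ∈ bcS ℂ 𝔤 ↔ Z ∈ bcS ℂ (scal ℓ 𝔤) := by
  constructor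
  · intro h
    have h1 : ∀ W ∈ bcS ℂ 𝔤, (ec ℓ).conj.symm W ∈ bcS ℂ (scal ℓ 𝔤) := by
      intro W hW
      induction hW using Submodule.span_induction with
      | mem W hW =>
        obtain ⟨X, hX, rfl⟩ := hW
        obtain ⟨Y, hY⟩ : ∃ Y, Extends X Y := ⟨_, (extends_iff ℓ X _).2 rfl⟩
        rw [← ec_conj ℓ hY, LinearEquiv.symm_apply_apply]
        exact mem_bcS (Submodule.subset_span ⟨X, hX, hY⟩)
      | zero => rw [map_zero]; exact Submodule.zero_mem _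
      | add A B _ _ hA hB => rw [map_add]; exact Submodule.add_mem _ hA hB
      | smul c A _ hA => rw [map_smul]; exact Submodule.smul_mem _ _ hA
    have h2 := h1 _ h
    rwa [LinearEquiv.symm_apply_apply] at h2
  · intro h
    induction h using Submodule.span_induction with
    | mem W hW =>
      obtain ⟨Y, hY, rfl⟩ := hW
      have h1 : ∀ Y ∈ scal ℓ 𝔤, (ec ℓ).conj (Y.baseChange ℂ) ∈ bcS ℂ 𝔤 := by
        intro Y hY
        induction hY using Submodule.span_induction with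
        | mem Y hY =>
          obtain ⟨X, hX, h⟩ := hY
          rw [ec_conj ℓ h]
          exact mem_bcS hX
        | zero => rw [LinearMap.baseChange_zero, map_zero]; exact Submodule.zero_mem _
        | add A B _ _ hA hB =>
          rw [LinearMap.baseChange_add, map_add]
          exact Submodule.add_mem _ hA hB
        | smul c A _ hA =>
          have h2 : (c • A).baseChange ℂ = (algebraMap ℚ_[ℓ] ℂ c) • A.baseChange ℂ := by
            rw [LinearMap.baseChange_smul]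
            exact (algebraMap_smul ℂ c (A.baseChange ℂ)).symm
          rw [h2, map_smul]
          exact Submodule.smul_mem _ _ hA
      exact h1 Y hY
    | zero => rw [map_zero]; exact Submodule.zero_mem _
    | add A B _ _ hA hB => rw [map_add]; exact Submodule.add_mem _ hA hB
    | smul c A _ hA => rw [map_smul]; exact Submodule.smul_mem _ _ hA

theorem onto_scal {𝔤 : Submodule ℚ (End ℚ (Betti n))} {J : Type} {N : J → ℕ}
    {f : End ℂ (ℂ ⊗[ℚ] (Betti n)) →ₗ[ℂ] Mats N} (h : Onto (bcS ℂ 𝔤) f) :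
    Onto (bcS ℂ (scal ℓ 𝔤)) (f ∘ₗ ((ec (n := n) ℓ).conj : _ →ₗ[ℂ] _)) := by
  refine ⟨?_, ?_, ?_⟩
  · intro X hX Y hY
    have h1 := h.hom _ ((mem_ec ℓ X).2 hX) _ ((mem_ec ℓ Y).2 hY)
    rw [← ec_conj_mul, ← ec_conj_mul, ← map_sub] at h1
    exact h1
  · intro X hX h0 Y hY
    have h1 := h.ker _ ((mem_ec ℓ X).2 hX) h0 _ ((mem_ec ℓ Y).2 hY)
    rw [← ec_conj_mul, ← ec_conj_mul] at h1
    exact (ec ℓ).conj.injective h1
  · intro A hA
    obtain ⟨X, hX, hfX⟩ := h.onto A hA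
    refine ⟨(ec ℓ).conj.symm X, (mem_ec ℓ _).1 (by rwa [LinearEquiv.apply_symm_apply]), ?_⟩
    show f ((ec ℓ).conj ((ec ℓ).conj.symm X)) = A
    rw [LinearEquiv.apply_symm_apply, hfX]

end tr

end Pool.Agent.Helper49B
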