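import Pool.Agent.Helper49B.Center2
import Pool.Agent.Helper49B.TypeATr
import Pool.Agent.N203.RE.Main

/-!
# Type A at every prime number
-/

set_option autoImplicit false
set_option linter.unusedSectionVars false

namespace Pool.Agent.Helper49B

open NumberField IsDedekindDomain Module Polynomial TensorProduct Filter Pool.Agent.Y114.RM
  Pool.Agent.TH118.SG
  Pool.Agent.Y114.GF Pool.Agent.Y114.TF Pool.Agent.Y114.MU Pool.Agent.W569.FM Pool.Agent.W571.FM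
  Pool.Agent.H204R3.GP Pool.Agent.R931.IR Pool.Agent.R931.BD Pool.Agent.N203.RE
  Pool.Agent.Helper49A

section places

variable {ι : Type}

theorem placesIndependent_rat (P : HeightOneSpectrum (𝓞 ℚ) → ι → ℚ[X]) {p : ℕ} (hp : p.Prime) :
    PlacesIndependent P p := by
  classical
  intro x _ hm v hv
  obtain ⟨m, hm0, hm⟩ := hm
  refine ⟨m, hm0, ?_⟩
  have h1 : (∏ᶠ (v : HeightOneSpectrum (𝓞 ℚ)) (_ : Above v p), x v) = x v := by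
    rw [finprod_eq_single (fun v : HeightOneSpectrum (𝓞 ℚ) => ∏ᶠ (_ : Above v p), x v) v]
    · exact finprod_eq_if.trans (if_pos hv)
    · intro v' hv'
      have h2 : ¬ Above v' p := fun h => hv' ((above_iff hp hv v').1 h)
      exact finprod_eq_if.trans (if_neg h2)
  rwa [h1] at hm

theorem maximalRankAt_rat {S : Set (HeightOneSpectrum (𝓞 ℚ))}
    {P : HeightOneSpectrum (𝓞 ℚ) → ι → ℚ[X]} {r p ℓ : ℕ} (hp : p.Prime) (hmax : MaxRank P r p)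
    (hbad : p ∉ badSet S ℓ) : MaximalRankAt S P r p := by
  obtain ⟨-, h2, h3⟩ := good_of_not_bad hp hbad
  exact ⟨hp, h2, h3, placesIndependent_rat P hp, hmax⟩

end places

section center

variable {k : Type} [Field k] [CharZero k] [Algebra k ℂ] {V : Type} [AddCommGroup V] [Module k V]
  [FiniteDimensional k V]

/-- Central elements over the complex numbers. -/
theorem central_bcS (h : Inputs) {L G : Submodule k (End k V)}
    (hcen : ∀ X ∈ L, (∀ Y ∈ L, Y * X = X * Y) → ∀ Y ∈ G, Y * X = X * Y)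
    {z : End ℂ (ℂ ⊗[k] V)} (hz : z ∈ bcS ℂ L) (hzc : ∀ x ∈ bcS ℂ L, z * x = x * z) :
    ∀ y ∈ bcS ℂ G, z * y = y * z := by
  let C : Submodule k (End k V) :=
    { carrier := {X | X ∈ L ∧ ∀ Y ∈ L, Y * X = X * Y}
      add_mem' := by
        rintro a b ⟨ha, ha'⟩ ⟨hb, hb'⟩
        exact ⟨L.add_mem ha hb, fun Y hY => by rw [mul_add, add_mul, ha' Y hY, hb' Y hY]⟩
      zero_mem' := ⟨L.zero_mem, fun Y _ => by rw [mul_zero, zero_mul]⟩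
      smul_mem' := by
        rintro c a ⟨ha, ha'⟩
        exact ⟨L.smul_mem c ha, fun Y hY => by rw [mul_smul_comm, smul_mul_assoc, ha' Y hY]⟩ }
  have hzC : z ∈ bcS ℂ C := by
    rw [(h.bc k ℂ V C).1]
    intro π
    refine ⟨((h.bc k ℂ V L).1 z).1 hz π, fun Y hY => ?_⟩
    rw [← pM_bc_mul, ← pM_mul_bc, hzc _ (mem_bcS hY)]
  intro y hy
  clear hz hzc
  induction hzC using Submodule.span_induction with
  | mem z hz =>
    obtain ⟨X, ⟨hXL, hXc⟩, rfl⟩ := hz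
    exact (bcS_comm (hcen X hXL hXc) y hy).symm
  | zero => rw [zero_mul, mul_zero]
  | add a b _ _ ha hb => rw [add_mul, mul_add, ha, hb]
  | smul c a _ ha => rw [smul_mul_assoc, mul_smul_comm, ha]

end center

section main

variable {ι : Type} [Fintype ι] [DecidableEq ι] {n : ι → ℕ} {ℓ : ℕ} [hℓ : Fact ℓ.Prime]

theorem full_main
    (ρ : ∀ i, Representation ℚ_[ℓ] Gal(AlgebraicClosure ℚ/ℚ) (Fin (n i) → ℚ_[ℓ]))
    (hρ : ∀ i, Continuous fun g => LinearMap.toMatrix' (ρ i g)) (w : ι → ℤ)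
    (S : Set (HeightOneSpectrum (𝓞 ℚ))) (hS : S.Finite)
    (P : HeightOneSpectrum (𝓞 ℚ) → ι → ℚ[X])
    (hP : ∀ v ∉ S, ¬ Above v ℓ → ∀ i, GoodReduction ρ i (w i) v (P v i))
    {𝔤 : Submodule ℚ (End ℚ (Betti n))} (h𝔤 : IsMotivic ρ (scal ℓ 𝔤)) {r : ℕ}
    (hrk : RankAtMost (scal ℓ 𝔤) r) (hss : FiniteIndexSemisimple (sumRep ρ))
    {L : Submodule ℚ_[ℓ] (End ℚ_[ℓ] (∀ i, Fin (n i) → ℚ_[ℓ]))}
    (hLT : ∀ X, X ∈ L ↔ ∀ (m : ℕ) (φ : Tensor ℚ_[ℓ] (∀ i, Fin (n i) → ℚ_[ℓ]) m),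
      TateTensor (sumRep ρ) φ → KillsTensor X φ) (hLie : IsLie L) (hND : NonDeg L)
    (hLG : L ≤ scal ℓ 𝔤)
    (hcen : ∀ X ∈ L, (∀ Y ∈ L, Y * X = X * Y) → ∃ c : ι → ℚ_[ℓ], ∀ x i, X x i = c i • x i)
    {p : ℕ} (hp : p.Prime) (hmax : MaxRank P r p) (hbad : p ∉ badSet S ℓ)
    (hA : TypeA 𝔤) : L = scal ℓ 𝔤 := by
  classical
  have h := inputs
  have h2 := inputs2
  obtain ⟨j⟩ := exists_emb ℓ
  let alg : Algebra ℚ_[ℓ] ℂ := (j.comp (algebraMap ℚ_[ℓ] (PadicAlgCl ℓ))).toAlgebra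
  have hL : ∀ X, X ∈ L ↔ X ∈ LT (sumRep ρ) := fun X =>
    ⟨fun hX => mem_LT_of_semisimple (sumRep ρ) hss ((hLT X).1 hX), fun hX => (hLT X).2 hX.2⟩
  -- the place of maximal rank
  obtain ⟨hpℓ, -, hpS⟩ := good_of_not_bad hp hbad
  obtain ⟨v, hv, z, hz, hzind⟩ := hmax
  obtain ⟨Q, φ, hQ, hQv, hφ⟩ := frob_cm v
  have hvℓ : ¬ Above v ℓ := fun h4 => hpℓ (Pool.Agent.R931.GD.above_inj hp hℓ.out hv h4)
  have hchar : ∀ i, (ρ i φ⁻¹).charpoly = (P v i).map (algebraMap ℚ ℚ_[ℓ]) := fun i =>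
    ((hP v (hpS v hv) hvℓ i).2 Q ⟨hQ.isPrime, hQv⟩ φ).2 hφ
  have hz' : ∀ j, End.HasEigenvalue ((sumRep ρ φ⁻¹).baseChange ℂ) (z j) := by
    intro j
    obtain ⟨_, ⟨i, rfl⟩, hi⟩ := hz j
    exact sumRep_eigen ρ φ⁻¹ (hchar i) hi
  set gC : End ℂ (ℂ ⊗[ℚ_[ℓ]] (∀ i, Fin (n i) → ℚ_[ℓ])) := (sumRep ρ φ⁻¹).baseChange ℂ with hgC
  set g'C : End ℂ (ℂ ⊗[ℚ_[ℓ]] (∀ i, Fin (n i) → ℚ_[ℓ])) :=
    (sumRep ρ (φ⁻¹)⁻¹).baseChange ℂ with hg'C
  have hgg' : gC * g'C = 1 := by rw [hgC, hg'C, ← bc_mul, Pool.Agent.Y114.RM.rho_mul_inv, bc_one]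
  have hg'g : g'C * gC = 1 := by rw [hgC, hg'C, ← bc_mul, Pool.Agent.Y114.RM.rho_inv_mul, bc_one]
  have htorus := torus_cen (sumRep ρ) h h2.jord h2.cartan hL hLG h𝔤.bracket h𝔤.nondeg h𝔤.algebraic
      hrk φ⁻¹ z hz' hzind
  obtain ⟨d, hd, hgen⟩ := exists_generator gC g'C hg'g
  obtain ⟨J, N, f, hf1, hf2, hf3⟩ := hA
  have hfull : bcS ℂ L = bcS ℂ (scal ℓ 𝔤) := by
    refine full_typeA ((h.bc ℚ_[ℓ] ℂ _ (scal ℓ 𝔤)).2.1 h𝔤.bracket)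
      ((h.bc ℚ_[ℓ] ℂ _ L).2.1 hLie) (bcS_mono hLG) ((h.bc ℚ_[ℓ] ℂ _ L).2.2.1 hND)
      (onto_scal ℓ (𝔤 := 𝔤) (N := N) (f := f) ⟨hf1, hf2, hf3⟩) (t := tor gC)
      (tor_le (sumRep ρ) h hL φ⁻¹) ?_ hd ?_ ?_
    · rintro a ⟨θ, ha⟩
      exact tor_diag (AdE gC g'C) (adE a) ⟨θ, h.ad ℂ _ θ gC g'C a hgg' hg'g ha⟩
    · intro x hx hdx
      exact htorus x hx fun a ha => hgen x hdx a ha
    · intro z hz hzc
      refine central_bcS h (fun X hX hXc Y hY => ?_) hz hzc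
      obtain ⟨c, hc⟩ := hcen X hX hXc
      refine LinearMap.ext fun x => funext fun i => ?_
      rw [End.mul_apply, End.mul_apply, hc, h𝔤.parts Y hY (X x) i, h𝔤.parts Y hY x i, hc]
      have h1 : (Pi.single i (c i • x i) : ∀ i, Fin (n i) → ℚ_[ℓ]) =
          c i • Pi.single i (x i) := by
        rw [Pi.single_smul]
      rw [h1, map_smul]
      rfl
  exact (h.bc ℚ_[ℓ] ℂ _ (scal ℓ 𝔤)).2.2.2.2.1 L hLG hfull

end main

end Pool.Agent.Helper49B
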