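import Pool.Agent.N978.HP.Pos
import Pool.Agent.Y114.TF.Defs

/-!
# Closed subgroups of the Galois group which contain the Frobenius elements of more than half of the
# primes
-/

set_option autoImplicit false

namespace Pool.Agent.Helper49B

open Filter Topology NumberField IsDedekindDomain Pool.Agent.Y114.TF
open Pool.Agent.W401.Cheb (dens IsFrob GK)

/-- A closed proper subgroup is contained in an open proper subgroup. -/
theorem exists_open_subgroup {G : Type} [Group G] [TopologicalSpace G] [IsTopologicalGroup G]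
    [CompactSpace G] [TotallyDisconnectedSpace G] (H : Subgroup G) (hH : IsClosed (H : Set G))
    (hne : H ≠ ⊤) : ∃ H' : Subgroup G, H ≤ H' ∧ IsOpen (H'.normalCore : Set G) ∧ H' ≠ ⊤ := by
  obtain ⟨σ, hσ⟩ : ∃ σ, σ ∉ H := by
    by_contra hcon
    push Not at hcon
    exact hne (Subgroup.ext fun x => ⟨fun _ => Subgroup.mem_top x, fun _ => hcon x⟩)
  have hW : IsOpen {g : G | σ * g ∉ H} := hH.isOpen_compl.preimage (continuous_const_mul σ)
  have h1W : (1 : G) ∈ {g : G | σ * g ∉ H} := by simpa using hσ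
  obtain ⟨U, hU⟩ := ProfiniteGrp.exist_openNormalSubgroup_sub_open_nhds_of_one hW h1W
  have hUo : IsOpen (U.toSubgroup : Set G) := U.isOpen'
  have hUn : U.toSubgroup.Normal := U.isNormal'
  refine ⟨H ⊔ U.toSubgroup, le_sup_left, ?_, ?_⟩
  · exact Subgroup.isOpen_mono (Subgroup.normal_le_normalCore.2 le_sup_right) hUo
  · intro htop
    have h1 : σ ∈ H ⊔ U.toSubgroup := by rw [htop]; exact Subgroup.mem_top σ
    obtain ⟨h, hh, u, hu, hhu⟩ := Subgroup.mem_sup_of_normal_right.1 h1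
    have h2 : u⁻¹ ∈ {g : G | σ * g ∉ H} := hU (U.toSubgroup.inv_mem hu)
    apply h2
    rw [← hhu, mul_inv_cancel_right]
    exact hh

theorem top_of_density (H : Subgroup (GK ℚ)) (hH : IsClosed (H : Set (GK ℚ))) (A : ℕ → Prop)
    {δ : ℝ} (hδ : 1 / 2 < δ) (hA : ∃ᶠ N : ℕ in atTop, δ ≤ proportion A N)
    (B : Set ℕ) (hB : B.Finite)
    (hfrob : ∀ p : ℕ, p.Prime → A p → p ∉ B → ∀ v : HeightOneSpectrum (𝓞 ℚ),
      (p : 𝓞 ℚ) ∈ v.asIdeal → ∀ σ, IsFrob v σ → σ ∈ H) : H = ⊤ := by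
  classical
  by_contra hne
  obtain ⟨H', hHH', hopen, hne'⟩ := exists_open_subgroup H hH hne
  set U : Subgroup (GK ℚ) := H'.normalCore with hU
  have hUn : U.Normal := inferInstance
  have key := Pool.Agent.W528.Ord.chebK ℚ U hopen (U : Set (GK ℚ))
    (fun σ hσ τ => hUn.conj_mem σ hσ τ) (fun σ hσ u hu => U.mul_mem hσ hu)
  have hfin : Finite (GK ℚ ⧸ U) := Subgroup.quotient_finite_of_isOpen _ hopen
  have himg : ((QuotientGroup.mk : GK ℚ → GK ℚ ⧸ U) '' (U : Set (GK ℚ))).ncard = 1 := by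
    rw [Set.ncard_eq_one]
    refine ⟨QuotientGroup.mk 1, ?_⟩
    ext x
    constructor
    · rintro ⟨σ, hσ, rfl⟩
      rw [Set.mem_singleton_iff, QuotientGroup.eq, mul_one]
      exact U.inv_mem hσ
    · rintro rfl
      exact ⟨1, U.one_mem, rfl⟩
  have hcard : 2 ≤ Nat.card (GK ℚ ⧸ U) := by
    by_contra hcon
    have h1 : Nat.card (GK ℚ ⧸ U) ≤ 1 := by omega
    have h2 : Subsingleton (GK ℚ ⧸ U) := Finite.card_le_one_iff_subsingleton.1 h1
    apply hne'
    rw [eq_top_iff]
    intro x _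
    have h3 : (QuotientGroup.mk x : GK ℚ ⧸ U) = QuotientGroup.mk 1 := Subsingleton.elim _ _
    rw [QuotientGroup.eq, mul_one] at h3
    have h4 := Subgroup.normalCore_le H' h3
    exact (Subgroup.inv_mem_iff H').1 h4
  rw [himg, Nat.cast_one] at key
  have hle : (1 : ℝ) / (Nat.card (GK ℚ ⧸ U) : ℝ) ≤ 1 / 2 := by
    apply one_div_le_one_div_of_le (by norm_num)
    exact_mod_cast hcard
  -- eventually the density is less than a number less than `δ`
  obtain ⟨ε, hε1, hε2⟩ := exists_between hδ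
  have hev := key.eventually (gt_mem_nhds (lt_of_le_of_lt hle hε1))
  have hpi : Tendsto (fun n : ℕ => (δ - ε) * (Nat.primeCounting n : ℝ)) atTop atTop :=
    (tendsto_natCast_atTop_atTop.comp Nat.tendsto_primeCounting).const_mul_atTop (sub_pos.2 hε2)
  have hfreq := hA.and_eventually (hev.and ((hpi.eventually_gt_atTop (Nat.card B : ℝ)).and
    (Nat.tendsto_primeCounting.eventually_gt_atTop 0)))
  obtain ⟨N, hN1, hN2, hN3, hN4⟩ := hfreq.exists
  have hpos : (0 : ℝ) < (Nat.primeCounting N : ℝ) := by exact_mod_cast hN4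
  unfold proportion at hN1
  unfold dens at hN2
  rw [le_div_iff₀ hpos] at hN1
  rw [div_lt_iff₀ hpos] at hN2
  -- an injection
  set X := {v : HeightOneSpectrum (𝓞 ℚ) // Ideal.absNorm v.asIdeal ≤ N ∧
    ∃ σ ∈ (U : Set (GK ℚ)), IsFrob v σ} with hX
  have hfX : Finite X := by
    have h9 : Finite {v : HeightOneSpectrum (𝓞 ℚ) // Ideal.absNorm v.asIdeal ≤ N} := by
      have h10 : Function.Injective (fun v : {v : HeightOneSpectrum (𝓞 ℚ) //
          Ideal.absNorm v.asIdeal ≤ N} => (⟨Ideal.absNorm v.1.asIdeal, Nat.lt_succ_of_le v.2⟩ :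
            Fin (N + 1))) := by
        intro v w hvw
        have h11 : Ideal.absNorm v.1.asIdeal = Ideal.absNorm w.1.asIdeal := congrArg Fin.val hvw
        obtain ⟨p, hp, hpv⟩ := Pool.Agent.R931.IR.exists_prime v.1
        obtain ⟨p', hp', hpw⟩ := Pool.Agent.R931.IR.exists_prime w.1
        rw [Pool.Agent.R931.IR.absNorm_eq hp hpv, Pool.Agent.R931.IR.absNorm_eq hp' hpw] at h11
        subst h11
        exact Subtype.ext ((Pool.Agent.R931.IR.above_iff hp hpw v.1).1 hpv)
      exact Finite.of_injective _ h10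
    exact Pool.Agent.N978.HP.finite_of_imp h9 fun v hv => hv.1
  have hfB : Finite B := hB
  set Y := {p : ℕ // p ∈ (Finset.range (N + 1)).filter fun p => p.Prime ∧ A p} with hY
  have hYcard : Nat.card Y = ((Finset.range (N + 1)).filter fun p => p.Prime ∧ A p).card := by
    rw [hY, Nat.card_eq_fintype_card, Fintype.card_coe]
  have hdata : ∀ p : Y, p.1 ≤ N ∧ p.1.Prime ∧ A p.1 := by
    rintro ⟨p, hp⟩
    rw [Finset.mem_filter, Finset.mem_range] at hp
    exact ⟨Nat.lt_succ_iff.1 hp.1, hp.2⟩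
  have hplace : ∀ p : Y, ∃ v : HeightOneSpectrum (𝓞 ℚ), (p.1 : 𝓞 ℚ) ∈ v.asIdeal ∧
      (p.1 ∉ B → ∃ σ ∈ (U : Set (GK ℚ)), IsFrob v σ) := by
    intro p
    obtain ⟨v, hv⟩ := Pool.Agent.R931.IR.exists_above (hdata p).2.1
    refine ⟨v, hv, fun hpB => ?_⟩
    obtain ⟨σ, hσ⟩ := (Pool.Agent.W401.Frob.main ℚ).1 v
    refine ⟨σ, fun τ => ?_, hσ⟩
    exact hHH' (hfrob p.1 (hdata p).2.1 (hdata p).2.2 hpB v hv _
      ((Pool.Agent.W401.Frob.main ℚ).2.2 v σ τ hσ))
  choose pl hpl hplU using hplace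
  have hnorm : ∀ p : Y, Ideal.absNorm (pl p).asIdeal = p.1 := fun p =>
    Pool.Agent.R931.IR.absNorm_eq (hdata p).2.1 (hpl p)
  have hcardle : Nat.card Y ≤ Nat.card (X ⊕ B) := by
    refine Nat.card_le_card_of_injective (fun p : Y =>
      if h : p.1 ∈ B then Sum.inr ⟨p.1, h⟩
      else Sum.inl ⟨pl p, by rw [hnorm]; exact (hdata p).1, hplU p h⟩) ?_
    intro p p' hpp
    by_cases hp : p.1 ∈ B
    · by_cases hp' : p'.1 ∈ B
      · simp only [dif_pos hp, dif_pos hp', Sum.inr.injEq, Subtype.mk.injEq] at hpp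
        exact Subtype.ext hpp
      · simp only [dif_pos hp, dif_neg hp'] at hpp
        exact absurd hpp (by simp)
    · by_cases hp' : p'.1 ∈ B
      · simp only [dif_neg hp, dif_pos hp'] at hpp
        exact absurd hpp (by simp)
      · simp only [dif_neg hp, dif_neg hp', Sum.inl.injEq] at hpp
        have h0 : pl p = pl p' := congrArg Subtype.val hpp
        have h1 := hnorm p
        rw [h0, hnorm p'] at h1
        exact Subtype.ext h1.symm
  rw [Nat.card_sum, hYcard] at hcardle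
  have h5 : (((Finset.range (N + 1)).filter fun p => p.Prime ∧ A p).card : ℝ) ≤
      (Nat.card X : ℝ) + (Nat.card B : ℝ) := by exact_mod_cast hcardle
  have h6 : (((Finset.range (N + 1)).filter fun p => p.Prime ∧ A p).card : ℝ) =
      ((Finset.range (N + 1)).filter fun p => p.Prime ∧ A p).card := rfl
  have h7 : δ * (Nat.primeCounting N : ℝ) < ε * (Nat.primeCounting N : ℝ) +
      (δ - ε) * (Nat.primeCounting N : ℝ) := by
    calc δ * (Nat.primeCounting N : ℝ) ≤ _ := hN1
      _ ≤ (Nat.card X : ℝ) + (Nat.card B : ℝ) := by convert h5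
      _ < _ := add_lt_add hN2 hN3
  linarith

end Pool.Agent.Helper49B
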