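import Pool.Agent.Helper49B.Emb
import Pool.Agent.Helper49B.Dens

/-!
# Central elements act by scalars
-/

set_option autoImplicit false
set_option linter.unusedSectionVars false

namespace Pool.Agent.Helper49B

open NumberField IsDedekindDomain Module Polynomial TensorProduct Filter Pool.Agent.Y114.RM
  Pool.Agent.TH118.SG
  Pool.Agent.Y114.GF Pool.Agent.Y114.TF Pool.Agent.Y114.MU Pool.Agent.W569.FM Pool.Agent.W571.FM
  Pool.Agent.H204R3.GP Pool.Agent.R931.IR Pool.Agent.Helper49A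

section blocks

variable {k : Type} [Field k] {ι : Type} [DecidableEq ι] {V : ι → Type}
  [∀ i, AddCommGroup (V i)] [∀ i, Module k (V i)]

theorem part_single {X : End k (∀ i, V i)} (hparts : ∀ x i, X x i = X (Pi.single i (x i)) i)
    (i : ι) (x : V i) : X (Pi.single i x) = Pi.single i (X (Pi.single i x) i) := by
  funext m
  by_cases hm : m = i
  · subst hm
    rw [Pi.single_eq_same]
  · rw [hparts, Pi.single_eq_of_ne hm, Pi.single_zero, map_zero, Pi.single_eq_of_ne hm,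
      Pi.zero_apply]

theorem sumRep_single {Γ : Type} [Group Γ] (ρ : ∀ i, Representation k Γ (V i)) (γ : Γ) (i : ι)
    (x : V i) : sumRep ρ γ (Pi.single i x) = Pi.single i (ρ i γ x) := by
  funext m
  show ρ m γ ((Pi.single i x : ∀ i, V i) m) = _
  by_cases hm : m = i
  · subst hm
    rw [Pi.single_eq_same, Pi.single_eq_same]
  · rw [Pi.single_eq_of_ne hm, Pi.single_eq_of_ne hm, map_zero]

end blocks

section center

variable {ι : Type} [Fintype ι] [DecidableEq ι] {n : ι → ℕ} {ℓ : ℕ} [hℓ : Fact ℓ.Prime]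

/-- An operator which commutes with the Galois group and is attached to a Frobenius element acts by a
scalar on each summand. -/
theorem center_scalar (h : Inputs)
    (ρ : ∀ i, Representation ℚ_[ℓ] Gal(AlgebraicClosure ℚ/ℚ) (Fin (n i) → ℚ_[ℓ]))
    (hρ : ∀ i, Continuous fun g => LinearMap.toMatrix' (ρ i g)) (w : ι → ℤ) (S : Set (HeightOneSpectrum (𝓞 ℚ))) (hS : S.Finite)
    (P : HeightOneSpectrum (𝓞 ℚ) → ι → ℚ[X])
    (hP : ∀ v ∉ S, ¬ Above v ℓ → ∀ i, GoodReduction ρ i (w i) v (P v i))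
    (alg : Algebra ℚ_[ℓ] ℂ) (j : PadicAlgCl ℓ →+* ℂ)
    (hj : ∀ x, algebraMap ℚ_[ℓ] ℂ x = j (algebraMap ℚ_[ℓ] (PadicAlgCl ℓ) x))
    (X : End ℚ_[ℓ] (∀ i, Fin (n i) → ℚ_[ℓ])) (hparts : ∀ x i, X x i = X (Pi.single i (x i)) i)
    (hX : ∀ γ, X * sumRep ρ γ = sumRep ρ γ * X) (v : HeightOneSpectrum (𝓞 ℚ)) (hvS : v ∉ S)
    (hvℓ : ¬ Above v ℓ) (Q : Ideal (OO ℚ)) (hQ : Q.IsPrime) (hQv : cm Q = v.asIdeal)
    (φ : GF ℚ) (hφ : FrobAt (Ideal.absNorm v.asIdeal) Q φ)
    (htor : X.baseChange ℂ ∈ tor ((sumRep ρ φ⁻¹).baseChange ℂ)) :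
    ∃ c : ι → ℚ_[ℓ], ∀ x i, X x i = c i • x i := by
  classical
  obtain ⟨θ, hθ⟩ := htor
  have key : ∀ i, ∃ c : ℚ_[ℓ], ∀ x : Fin (n i) → ℚ_[ℓ], X (Pi.single i x) i = c • x := by
    intro i
    let Xi : End ℚ_[ℓ] (Fin (n i) → ℚ_[ℓ]) :=
      LinearMap.proj i ∘ₗ X ∘ₗ LinearMap.single ℚ_[ℓ] (fun i => Fin (n i) → ℚ_[ℓ]) i
    have hXi : ∀ x, Xi x = X (Pi.single i x) i := fun x => rfl
    have hXi' : ∀ x, X (Pi.single i x) = Pi.single i (Xi x) := fun x => part_single hparts i x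
    have hcomm : ∀ γ, Xi * ρ i γ = ρ i γ * Xi := by
      intro γ
      refine LinearMap.ext fun x => ?_
      have h1 := LinearMap.congr_fun (hX γ) (Pi.single i x)
      rw [End.mul_apply, End.mul_apply, sumRep_single, hXi', hXi', sumRep_single] at h1
      exact Pi.single_injective (M := fun i => Fin (n i) → ℚ_[ℓ]) i h1
    set A : Matrix (Fin (n i)) (Fin (n i)) ℚ_[ℓ] := LinearMap.toMatrix' Xi with hA
    have hAc : ∀ g, A * LinearMap.toMatrix' (ρ i g) = LinearMap.toMatrix' (ρ i g) * A := by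
      intro g
      rw [hA, ← LinearMap.toMatrix'_mul, ← LinearMap.toMatrix'_mul, hcomm]
    have hmapj : ∀ M : Matrix (Fin (n i)) (Fin (n i)) ℚ_[ℓ],
        (M.map (algebraMap ℚ_[ℓ] (PadicAlgCl ℓ))).map j = M.map (algebraMap ℚ_[ℓ] ℂ) := by
      intro M
      rw [Matrix.map_map]
      congr 1
      funext x
      exact (hj x).symm
    have hop : IsOp θ (Matrix.toLin' ((mt (ρ i) φ⁻¹).map j)) (Matrix.toLin'
        ((A.map (algebraMap ℚ_[ℓ] (PadicAlgCl ℓ))).map j)) := by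
      have hmt : (mt (ρ i) φ⁻¹).map j =
          (LinearMap.toMatrix' (ρ i φ⁻¹)).map (algebraMap ℚ_[ℓ] ℂ) := hmapj _
      rw [hmt, hmapj]
      exact isOp_inj (emb ℚ_[ℓ] i) (emb_injective i)
        (fun x => emb_comm i (sumRep ρ φ⁻¹) (ρ i φ⁻¹) (sumRep_single ρ φ⁻¹ i) x)
        (fun x => emb_comm i X Xi hXi' x) hθ
    have hev := fun μ hμ => one_eigen h (ρ i) (hρ i) j S hS (fun v => P v i)
      (fun v hv hvℓ Q hQ hQv g hg => ((hP v hv hvℓ i).2 Q ⟨hQ, hQv⟩ g).2 hg) A hAc v hvS hvℓ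
      (hP v hvS hvℓ i).1 Q hQ hQv φ hφ hop μ hμ
    have hdiag := tor_diag _ (Matrix.toLin' ((A.map (algebraMap ℚ_[ℓ] (PadicAlgCl ℓ))).map j))
      ⟨θ, hop⟩
    rw [hmapj] at hev hdiag
    set T : End ℂ (Fin (n i) → ℂ) := Matrix.toLin' (A.map (algebraMap ℚ_[ℓ] ℂ)) with hT
    set μ₀ : ℂ := (w i : ℂ) * ext0 θ (q v : ℂ) / 2 with hμ₀
    have hTs : ∀ x, T x = μ₀ • x := by
      intro x
      have hx : x ∈ ⨆ μ, End.eigenspace T μ := by rw [hdiag]; trivial
      refine Submodule.iSup_induction (fun μ => End.eigenspace T μ)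
        (motive := fun x => T x = μ₀ • x) hx ?_ ?_ ?_
      · intro μ x hx
        by_cases hx0 : x = 0
        · rw [hx0, map_zero, smul_zero]
        have h1 := hev μ (End.hasEigenvalue_of_hasEigenvector ⟨hx, hx0⟩)
        have h2 : μ = μ₀ := by
          rw [hμ₀, ← h1]
          ring
        rw [End.mem_eigenspace_iff.1 hx, h2]
      · rw [map_zero, smul_zero]
      · intro x y hx hy
        rw [map_add, hx, hy, smul_add]
    have hentry : ∀ a b, algebraMap ℚ_[ℓ] ℂ (A a b) = if a = b then μ₀ else 0 := by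
      intro a b
      have h1 := congrFun (hTs (Pi.single b 1)) a
      rw [hT, Matrix.toLin'_apply, Matrix.mulVec_single_one, Matrix.col_apply, Matrix.map_apply,
        Pi.smul_apply, Pi.single_apply, smul_eq_mul] at h1
      rw [h1]
      split_ifs <;> simp
    by_cases hni : n i = 0
    · refine ⟨0, fun x => ?_⟩
      have : IsEmpty (Fin (n i)) := by rw [hni]; infer_instance
      exact Subsingleton.elim _ _
    · let a₀ : Fin (n i) := ⟨0, Nat.pos_of_ne_zero hni⟩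
      refine ⟨A a₀ a₀, fun x => ?_⟩
      have hAs : A = (A a₀ a₀) • (1 : Matrix (Fin (n i)) (Fin (n i)) ℚ_[ℓ]) := by
        ext a b
        apply (algebraMap ℚ_[ℓ] ℂ).injective
        rw [hentry, Matrix.smul_apply, smul_eq_mul, map_mul, hentry, if_pos rfl, Matrix.one_apply]
        split_ifs
        · rw [map_one, mul_one]
        · rw [map_zero, mul_zero]
      rw [← hXi]
      have h1 : Xi = Matrix.toLin' A := by rw [hA, Matrix.toLin'_toMatrix']
      rw [h1, hAs, map_smul, Matrix.toLin'_one]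
      simp [a₀]
  choose c hc using key
  exact ⟨c, fun x i => by rw [hparts, hc]⟩

end center

end Pool.Agent.Helper49B
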