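import Pool.Agent.Helper49B.TypeA
import Pool.Agent.Helper49A.Iso

/-!
# Subalgebras of maximal rank of Lie algebras of type A: the general case
-/

set_option autoImplicit false
set_option linter.unusedSectionVars false

namespace Pool.Agent.Helper49B

open Module Pool.Agent.Y114.RM Pool.Agent.TH118.SG Pool.Agent.Helper49A

section conj

/-- A diagonalizable matrix. -/
theorem exists_conj {n : ℕ} (M : Matrix (Fin n) (Fin n) ℂ)
    (h : ⨆ μ, End.eigenspace (Matrix.toLin' M) μ = ⊤) :
    ∃ (Q Q' : Matrix (Fin n) (Fin n) ℂ) (D : Fin n → ℂ), Q * Q' = 1 ∧ Q' * Q = 1 ∧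
      Q' * M * Q = Matrix.diagonal D := by
  classical
  set T := Matrix.toLin' M with hT
  let s : Set (Fin n → ℂ) := {v | ∃ μ : ℂ, T v = μ • v}
  have hs : Submodule.span ℂ s = ⊤ := by
    rw [eq_top_iff, ← h]
    refine iSup_le fun μ => ?_
    intro v hv
    exact Submodule.subset_span ⟨μ, Module.End.mem_eigenspace_iff.1 hv⟩
  obtain ⟨b, hbs, hspan, hli⟩ := exists_linearIndependent ℂ s
  rw [hs] at hspan
  let B : Basis b ℂ (Fin n → ℂ) := Basis.mk hli (by rw [Subtype.range_coe, hspan])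
  have hfin : Finite b := hli.finite
  have : Fintype b := Fintype.ofFinite b
  have hcard : Fintype.card b = n := by
    have h1 := Module.finrank_eq_card_basis B
    rw [Module.finrank_fin_fun] at h1
    exact h1.symm
  let e : b ≃ Fin n := Fintype.equivFinOfCardEq hcard
  let B' : Basis (Fin n) ℂ (Fin n → ℂ) := B.reindex e
  have hB' : ∀ i, ∃ μ : ℂ, T (B' i) = μ • B' i := by
    intro i
    have h1 : B' i = ((e.symm i : b) : Fin n → ℂ) := by
      rw [Basis.reindex_apply, Basis.mk_apply]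
    rw [h1]
    exact hbs (e.symm i).2
  choose D hD using hB'
  let Q : Matrix (Fin n) (Fin n) ℂ := (Pi.basisFun ℂ (Fin n)).toMatrix B'
  let Q' : Matrix (Fin n) (Fin n) ℂ := B'.toMatrix (Pi.basisFun ℂ (Fin n))
  refine ⟨Q, Q', D, Basis.toMatrix_mul_toMatrix_flip _ _, Basis.toMatrix_mul_toMatrix_flip _ _, ?_⟩
  have h1 : LinearMap.toMatrix B' B' T = Q' * M * Q := by
    have h2 := basis_toMatrix_mul_linearMap_toMatrix_mul_basis_toMatrix B' (Pi.basisFun ℂ (Fin n))
      B' (Pi.basisFun ℂ (Fin n)) T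
    rw [← h2]
    have h3 : LinearMap.toMatrix (Pi.basisFun ℂ (Fin n)) (Pi.basisFun ℂ (Fin n)) T = M := by
      rw [hT, LinearMap.toMatrix_eq_toMatrix', LinearMap.toMatrix'_toLin']
    rw [h3]
  rw [← h1]
  ext i j
  rw [LinearMap.toMatrix_apply, hD, map_smul, Basis.repr_self, Finsupp.smul_single,
    Finsupp.single_apply, Matrix.diagonal_apply, smul_eq_mul, mul_one]
  by_cases hij : i = j
  · rw [if_pos hij.symm, if_pos hij, hij]
  · rw [if_neg (fun h => hij h.symm), if_neg hij]

theorem exists_extend_fun {n : ℕ} {v u : Fin n → ℂ} (hv : v ≠ 0) (hu : ¬ ∃ c : ℂ, u = c • v) :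
    ∃ φ : Fin n → ℂ, φ ⬝ᵥ v = 1 ∧ u ⬝ᵥ φ = 0 := by
  have hnot : v ∉ Submodule.span ℂ {u} := by
    intro h
    obtain ⟨c, hc⟩ := Submodule.mem_span_singleton.1 h
    by_cases hc0 : c = 0
    · rw [hc0, zero_smul] at hc
      exact hv hc.symm
    · exact hu ⟨c⁻¹, by rw [← hc, smul_smul, inv_mul_cancel₀ hc0, one_smul]⟩
  obtain ⟨g, hgv, hgu⟩ := Submodule.exists_dual_map_eq_bot_of_notMem hnot inferInstance
  have hgu0 : g u = 0 := by
    have h1 : g u ∈ (Submodule.span ℂ {u}).map g := ⟨u, Submodule.mem_span_singleton_self u, rfl⟩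
    rw [hgu, Submodule.mem_bot] at h1
    exact h1
  have hg : ∀ w, g w = ∑ i, w i * g (Pi.single i 1) := by
    intro w
    conv_lhs => rw [LinearMap.pi_apply_eq_sum_univ g w]
    refine Finset.sum_congr rfl fun i _ => ?_
    rw [smul_eq_mul]
    congr 2
    funext k
    rw [Pi.single_apply]
    by_cases h : i = k
    · rw [if_pos h, if_pos h.symm]
    · rw [if_neg h, if_neg (fun h' => h h'.symm)]
  refine ⟨fun i => (g v)⁻¹ * g (Pi.single i 1), ?_, ?_⟩
  · have h1 : ∑ i, (g v)⁻¹ * g (Pi.single i 1) * v i = (g v)⁻¹ * g v := by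
      conv_rhs => rw [hg v]
      rw [hg v, Finset.mul_sum]
      exact Finset.sum_congr rfl fun i _ => by ring
    show ∑ i, (g v)⁻¹ * g (Pi.single i 1) * v i = 1
    rw [h1, inv_mul_cancel₀ hgv]
  · have h1 : ∑ i, u i * ((g v)⁻¹ * g (Pi.single i 1)) = (g v)⁻¹ * g u := by
      rw [hg u, Finset.mul_sum]
      exact Finset.sum_congr rfl fun i _ => by ring
    show ∑ i, u i * ((g v)⁻¹ * g (Pi.single i 1)) = 0
    rw [h1, hgu0, mul_zero]

end conj

section lie

variable {V : Type} [AddCommGroup V] [Module ℂ V] [FiniteDimensional ℂ V] {J : Type}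
  [DecidableEq J] {N : J → ℕ} {G L : Submodule ℂ (End ℂ V)} {f : End ℂ V →ₗ[ℂ] Mats N}

/-- The images of diagonalizable elements are diagonalizable. -/
theorem diag_image (hG : IsLie G) (hf : Onto G f) {d : End ℂ V} (hd : d ∈ G)
    (hdd : ⨆ μ, End.eigenspace (adE d) μ = ⊤) (j : J) :
    ⨆ μ, End.eigenspace (Matrix.toLin' (f d j)) μ = ⊤ := by
  classical
  set T := Matrix.toLin' (f d j) with hT
  by_cases hN : N j = 0
  · have : IsEmpty (Fin (N j)) := by rw [hN]; infer_instance
    exact Subsingleton.elim _ _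
  have : Nonempty (Fin (N j)) := ⟨⟨0, Nat.pos_of_ne_zero hN⟩⟩
  obtain ⟨ev, hev⟩ := Module.End.exists_eigenvalue T
  obtain ⟨v, hv⟩ := hev.exists_hasEigenvector
  have hTv : T v = ev • v := hv.apply_eq_smul
  have hv0 : v ≠ 0 := hv.2
  have hvmem : v ∈ ⨆ μ, End.eigenspace T μ :=
    (le_iSup (fun μ => End.eigenspace T μ) ev) (Module.End.mem_eigenspace_iff.2 hTv)
  rw [eq_top_iff]
  intro u _
  by_cases hu : ∃ c : ℂ, u = c • v
  · obtain ⟨c, rfl⟩ := hu
    exact Submodule.smul_mem _ _ hvmem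
  -- a matrix of trace zero which maps `v` to `u`
  obtain ⟨φ, hφ⟩ := exists_extend_fun hv0 hu
  obtain ⟨A, hA0, hAv⟩ : ∃ A : Matrix (Fin (N j)) (Fin (N j)) ℂ, A.trace = 0 ∧
      A.mulVec v = u := by
    refine ⟨Matrix.vecMulVec u φ, ?_, ?_⟩
    · rw [Matrix.trace_vecMulVec]
      exact hφ.2
    · rw [Matrix.vecMulVec_mulVec]
      rw [hφ.1]
      simp
  obtain ⟨x, hx, hfx⟩ := hf.onto (Pi.single j A) (by
    intro k
    by_cases hk : k = j
    · subst hk
      rw [Pi.single_eq_same, hA0]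
    · rw [Pi.single_eq_of_ne hk, Matrix.trace_zero])
  have h1 := Submodule.inf_iSup_genEigenspace (p := G) (f := adE d) (fun z hz => hG d hd z hz) 1
  have h2 : ⨆ μ : ℂ, (adE d).genEigenspace μ 1 = ⊤ := hdd
  rw [h2, inf_top_eq] at h1
  have hx' : x ∈ ⨆ μ : ℂ, G ⊓ (adE d).genEigenspace μ 1 := h1 ▸ hx
  have key : (f x j).mulVec v ∈ ⨆ μ, End.eigenspace T μ := by
    refine Submodule.iSup_induction (fun μ : ℂ => G ⊓ (adE d).genEigenspace μ 1)
      (motive := fun x => (f x j).mulVec v ∈ ⨆ μ, End.eigenspace T μ) hx' ?_ ?_ ?_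
    · intro μ z hz
      obtain ⟨hzG, hzμ⟩ := Submodule.mem_inf.1 hz
      have hzμ' : adE d z = μ • z := Module.End.mem_eigenspace_iff.1 hzμ
      refine (le_iSup (fun μ => End.eigenspace T μ) (ev + μ)) (Module.End.mem_eigenspace_iff.2 ?_)
      have h3 := congrFun (hf.hom d hd z hzG) j
      rw [← adE_apply, hzμ', map_smul] at h3
      have h4 : f d j * f z j = f z j * f d j + μ • f z j := by
        have h5 : (μ • f z) j = f d j * f z j - f z j * f d j := h3
        rw [Pi.smul_apply] at h5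
        rw [h5]
        abel
      rw [hT, Matrix.toLin'_apply, Matrix.mulVec_mulVec, h4, Matrix.add_mulVec, ← Matrix.mulVec_mulVec]
      have h6 : (f d j).mulVec v = ev • v := by
        have h7 := hTv
        rw [hT, Matrix.toLin'_apply] at h7
        exact h7
      rw [h6, Matrix.mulVec_smul, Matrix.smul_mulVec, add_smul]
    · rw [map_zero]
      show (0 : Matrix (Fin (N j)) (Fin (N j)) ℂ).mulVec v ∈ _
      rw [Matrix.zero_mulVec]
      exact Submodule.zero_mem _
    · intro z z' hz hz'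
      rw [map_add]
      show (f z j + f z' j).mulVec v ∈ _
      rw [Matrix.add_mulVec]
      exact Submodule.add_mem _ hz hz'
  rw [hfx, Pi.single_eq_same, hAv] at key
  exact key

/-- **Subalgebras of maximal rank of a Lie algebra of type A** whose center is central are
everything. -/
theorem full_typeA [Fintype J] (hG : IsLie G) (hL : IsLie L) (hLG : L ≤ G) (hN : NonDeg L)
    (hf : Onto G f) {t : Submodule ℂ (End ℂ V)} (htL : t ≤ L)
    (htd : ∀ a ∈ t, ⨆ μ, End.eigenspace (adE a) μ = ⊤) {d : End ℂ V} (hd : d ∈ t)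
    (hcen : ∀ x ∈ G, d * x = x * d → x ∈ t)
    (hz : ∀ z ∈ L, (∀ x ∈ L, z * x = x * z) → ∀ y ∈ G, z * y = y * z) : L = G := by
  choose Q Q' D hQ hQ' hD using fun j =>
    exists_conj (f d j) (diag_image hG hf (hLG (htL hd)) (htd d hd) j)
  let f' : End ℂ V →ₗ[ℂ] Mats N :=
    { toFun := fun x j => Q' j * f x j * Q j
      map_add' := fun x y => by
        funext j
        rw [map_add, Pi.add_apply, Pi.add_apply, mul_add, add_mul]
      map_smul' := fun c x => by
        funext j
        rw [map_smul, Pi.smul_apply, RingHom.id_apply, Pi.smul_apply, mul_smul_comm,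
          smul_mul_assoc] }
  have hf' : ∀ x j, f' x j = Q' j * f x j * Q j := fun _ _ => rfl
  have hmul : ∀ (j : J) (A B : Matrix (Fin (N j)) (Fin (N j)) ℂ),
      (Q' j * A * Q j) * (Q' j * B * Q j) = Q' j * (A * B) * Q j := by
    intro j A B
    calc (Q' j * A * Q j) * (Q' j * B * Q j) = Q' j * A * (Q j * Q' j) * B * Q j := by
          simp only [mul_assoc]
      _ = Q' j * (A * B) * Q j := by rw [hQ, mul_one]; simp only [mul_assoc]
  refine full_diag hG hL hLG hN (f := f') ⟨?_, ?_, ?_⟩ htL htd hd hcen hz D ?_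
  · intro X hX Y hY
    funext j
    show f' (X * Y - Y * X) j = f' X j * f' Y j - f' Y j * f' X j
    rw [hf', hf', hf', hf.hom X hX Y hY, hmul, hmul, ← sub_mul, ← mul_sub]
    rfl
  · intro X hX h0
    refine hf.ker X hX (funext fun j => ?_)
    have h1 : Q' j * f X j * Q j = 0 := congrFun h0 j
    calc f X j = (Q j * Q' j) * f X j * (Q j * Q' j) := by rw [hQ, one_mul, mul_one]
      _ = Q j * (Q' j * f X j * Q j) * Q' j := by simp only [mul_assoc]
      _ = 0 := by rw [h1, mul_zero, zero_mul]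
  · intro A hA
    obtain ⟨X, hX, hfX⟩ := hf.onto (fun j => Q j * A j * Q' j) (fun j => by
      rw [Matrix.trace_mul_comm, ← mul_assoc, hQ', one_mul, hA])
    refine ⟨X, hX, funext fun j => ?_⟩
    rw [hf', hfX]
    calc Q' j * (Q j * A j * Q' j) * Q j = (Q' j * Q j) * A j * (Q' j * Q j) := by
          simp only [mul_assoc]
      _ = A j := by rw [hQ', one_mul, mul_one]
  · funext j
    rw [hf']
    exact hD j

end lie

section torus

variable {V : Type} [AddCommGroup V] [Module ℂ V] [FiniteDimensional ℂ V]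

/-- An element of the torus of `g` which generates it: what commutes with it commutes with the
torus. -/
theorem exists_generator (g g' : End ℂ V) (hg'g : g' * g = 1) :
    ∃ d ∈ tor g, ∀ X : End ℂ V, d * X = X * d → ∀ a ∈ tor g, a * X = X * a := by
  classical
  have hinj : Function.Injective g := injective_of_mul hg'g
  -- the eigenvalues
  have heig0 : ∀ β, g.maxGenEigenspace β ≠ ⊥ → β ≠ 0 := by
    rintro β hβ rfl
    have h1 : g.HasUnifEigenvalue 0 ⊤ := hβ
    have h3 : g.HasEigenvalue 0 := h1.lt one_pos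
    obtain ⟨v, hv⟩ := h3.exists_hasEigenvector
    have h2 := hv.apply_eq_smul
    rw [zero_smul] at h2
    exact hv.2 (hinj (by rw [h2, map_zero]))
  have hfin : {β | g.maxGenEigenspace β ≠ ⊥}.Finite := by
    refine (Module.End.finite_hasEigenvalue g).subset ?_
    intro β hβ
    by_contra h
    have h1 : g.HasUnifEigenvalue β ⊤ := hβ
    exact h (h1.lt one_pos)
  obtain ⟨θ, hθ⟩ := exists_separating (hfin.toFinset.attach.image fun β : {x // x ∈ hfin.toFinset} =>
    Units.mk0 (β : ℂ) (heig0 β ((Set.Finite.mem_toFinset hfin).1 β.2)))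
  let θC : Additive ℂˣ →+ ℂ := (Rat.castHom ℂ).toAddMonoidHom.comp θ
  have hext : ∀ β (hβ : β ≠ 0), ext0 θC β = ((θ (Additive.ofMul (Units.mk0 β hβ)) : ℚ) : ℂ) := by
    intro β hβ
    rw [ext0_ne _ hβ]
    rfl
  have hsep : ∀ β β', g.maxGenEigenspace β ≠ ⊥ → g.maxGenEigenspace β' ≠ ⊥ →
      ext0 θC β = ext0 θC β' → Commens β β' := by
    intro β β' hβ hβ' heq
    rw [hext β (heig0 β hβ), hext β' (heig0 β' hβ'), Rat.cast_inj] at heq
    have h1 := hθ (Units.mk0 β (heig0 β hβ)) (Finset.mem_image.2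
        ⟨⟨β, (Set.Finite.mem_toFinset hfin).2 hβ⟩, Finset.mem_attach _ _, rfl⟩)
      (Units.mk0 β' (heig0 β' hβ')) (Finset.mem_image.2
        ⟨⟨β', (Set.Finite.mem_toFinset hfin).2 hβ'⟩, Finset.mem_attach _ _, rfl⟩) heq
    exact h1
  obtain ⟨d, hd⟩ := exists_op g (fun z => ext0 θC z)
  have hdtor : d ∈ tor g := ⟨θC, hd⟩
  refine ⟨d, hdtor, fun X hX a ⟨θ', ha⟩ => ?_⟩
  -- components of `X v` for generalized eigenspaces
  refine op_ext g fun β v hv => ?_
  rw [Module.End.mul_apply, Module.End.mul_apply, ha β v hv, map_smul]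
  by_cases hbot : g.maxGenEigenspace β = ⊥
  · rw [hbot, Submodule.mem_bot] at hv
    rw [hv, map_zero, map_zero, smul_zero]
  set μ := ext0 θC β with hμ
  have hXv : X v ∈ End.eigenspace d μ := by
    rw [Module.End.mem_eigenspace_iff]
    have h1 := LinearMap.congr_fun hX v
    rw [Module.End.mul_apply, Module.End.mul_apply, hd β v hv, map_smul] at h1
    exact h1
  have hdg : d * g = g * d := by
    refine op_ext g fun β x hx => ?_
    have hgx : g x ∈ g.maxGenEigenspace β :=
      (Module.End.mapsTo_maxGenEigenspace_of_comm (Commute.refl g) β) hx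
    rw [Module.End.mul_apply, Module.End.mul_apply, hd β x hx, map_smul, hd β _ hgx]
  have hst : ∀ x ∈ End.eigenspace d μ, g x ∈ End.eigenspace d μ := by
    intro x hx
    rw [Module.End.mem_eigenspace_iff] at hx ⊢
    have h1 := LinearMap.congr_fun hdg x
    rw [Module.End.mul_apply, Module.End.mul_apply, hx, map_smul] at h1
    exact h1
  have h1 := Submodule.inf_iSup_genEigenspace (p := End.eigenspace d μ) (f := g) hst ⊤
  have h2 : ⨆ μ : ℂ, g.genEigenspace μ ⊤ = ⊤ := Module.End.iSup_maxGenEigenspace_eq_top g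
  rw [h2, inf_top_eq] at h1
  have hv' : X v ∈ ⨆ β, End.eigenspace d μ ⊓ g.genEigenspace β ⊤ := h1 ▸ hXv
  refine Submodule.iSup_induction (fun β => End.eigenspace d μ ⊓ g.genEigenspace β ⊤)
    (motive := fun x => a x = ext0 θ' β • x) hv' ?_ ?_ ?_
  · intro β' x hx
    obtain ⟨hx1, hx2⟩ := Submodule.mem_inf.1 hx
    by_cases hx0 : x = 0
    · rw [hx0, map_zero, smul_zero]
    have hβ' : g.maxGenEigenspace β' ≠ ⊥ := by
      intro h
      have h3 : x ∈ g.maxGenEigenspace β' := hx2
      rw [h, Submodule.mem_bot] at h3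
      exact hx0 h3
    have hval : ext0 θC β' = μ := by
      rw [Module.End.mem_eigenspace_iff, hd β' x hx2] at hx1
      exact smul_left_injective ℂ hx0 hx1
    rw [ha β' x hx2, ext0_commens θ' (hsep β' β hβ' hbot hval)]
  · rw [map_zero, smul_zero]
  · intro x y hx hy
    rw [map_add, hx, hy, smul_add]

end torus

end Pool.Agent.Helper49B
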