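import Pool.Agent.Helper49B.Center
import Pool.Agent.Helper49B.TypeA2
import Pool.Agent.Helper49B.Defs
import Pool.Agent.N978.HP.Open

/-!
# The center of the Lie algebra of the Tate tensors
-/

set_option autoImplicit false
set_option linter.unusedSectionVars false

namespace Pool.Agent.Helper49B

open NumberField IsDedekindDomain Module Polynomial TensorProduct Filter Pool.Agent.Y114.RM
  Pool.Agent.TH118.SG
  Pool.Agent.Y114.GF Pool.Agent.Y114.TF Pool.Agent.Y114.MU Pool.Agent.W569.FM Pool.Agent.W571.FM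
  Pool.Agent.H204R3.GP Pool.Agent.R931.IR Pool.Agent.R931.BD Pool.Agent.N203.RE
  Pool.Agent.Helper49A Pool.Agent.Y115.Chi Pool.Agent.Y115.CQ Pool.Agent.Y115.T
  Pool.Agent.K3h67.LN
open Pool.Agent.W401.Cheb (dens IsFrob GK)

theorem tor_commutes {V : Type} [AddCommGroup V] [Module ℂ V] [FiniteDimensional ℂ V]
    {g a : End ℂ V} (ha : a ∈ tor g) : a * g = g * a := by
  obtain ⟨θ, hθ⟩ := ha
  refine op_ext g fun β x hx => ?_
  have hgx : g x ∈ g.maxGenEigenspace β :=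
    (Module.End.mapsTo_maxGenEigenspace_of_comm (Commute.refl g) β) hx
  rw [Module.End.mul_apply, Module.End.mul_apply, hθ β x hx, map_smul, hθ β _ hgx]

/-- The absolute Galois group of the rational numbers is not trivial. -/
theorem bot_ne_top : (⊥ : Subgroup (GK ℚ)) ≠ ⊤ := by
  intro h
  have : Fact (Nat.Prime 2) := ⟨Nat.prime_two⟩
  obtain ⟨Q, σ, hQ, hQ3, hσ⟩ := exists_frobQ Nat.prime_three
  have h1 : σ = 1 := by
    have h2 : σ ∈ (⊤ : Subgroup (GK ℚ)) := Subgroup.mem_top σ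
    rw [← h] at h2
    exact Subgroup.mem_bot.1 h2
  have h3 := chiE_frob 2 Nat.prime_three (by norm_num) hQ.isPrime hQ3 hσ
  rw [h1, map_one, Units.val_one] at h3
  have h4 : ((1 : ℕ) : PadicAlgCl 2) = ((3 : ℕ) : PadicAlgCl 2) := by
    rw [Nat.cast_one]
    exact h3
  have h5 : (1 : ℕ) = 3 := Nat.cast_injective h4
  omega

/-- The primes below a finite set of places, and `ℓ`. -/
def badSet (S : Set (HeightOneSpectrum (𝓞 ℚ))) (ℓ : ℕ) : Set ℕ :=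
  {p | ¬ (p.Prime ∧ p ≠ ℓ ∧ UnramifiedIn ℚ p ∧ ∀ v, Above v p → v ∉ S) ∧ p.Prime}

theorem badSet_finite (S : Set (HeightOneSpectrum (𝓞 ℚ))) (hS : S.Finite) (ℓ : ℕ) :
    (badSet S ℓ).Finite := by
  refine (((Set.finite_singleton ℓ).union (Pool.Agent.R931.GD.finite_ramified ℚ)).union
    (Pool.Agent.R931.GD.finite_below S hS)).subset ?_
  rintro p ⟨hp, hpp⟩
  by_contra hcon
  apply hp
  refine ⟨hpp, fun h => hcon (Or.inl (Or.inl h)), ?_, fun v hv hvS =>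
    hcon (Or.inr ⟨hpp, v, hvS, hv⟩)⟩
  by_contra h
  exact hcon (Or.inl (Or.inr ⟨hpp, h⟩))

theorem good_of_not_bad {S : Set (HeightOneSpectrum (𝓞 ℚ))} {ℓ p : ℕ} (hp : p.Prime)
    (h : p ∉ badSet S ℓ) : p ≠ ℓ ∧ UnramifiedIn ℚ p ∧ ∀ v, Above v p → v ∉ S := by
  by_contra hcon
  exact h ⟨fun h' => hcon h'.2, hp⟩

/-- The Frobenius elements at places of maximal rank generate a dense subgroup. -/
def Generates {ι : Type} (P : HeightOneSpectrum (𝓞 ℚ) → ι → ℚ[X]) (r : ℕ) : Prop :=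
  ∀ H : Subgroup (GK ℚ), IsClosed (H : Set (GK ℚ)) → ∀ B : Set ℕ, B.Finite →
    (∀ p : ℕ, p.Prime → p ∉ B → ∀ v : HeightOneSpectrum (𝓞 ℚ), (p : 𝓞 ℚ) ∈ v.asIdeal →
      IndepRoots r (Set.range (P v)) → ∀ σ, IsFrob v σ → σ ∈ H) → H = ⊤

theorem generates_of_density {ι : Type} {P : HeightOneSpectrum (𝓞 ℚ) → ι → ℚ[X]} {r : ℕ}
    (h : MoreThanHalf (MaxRank P r)) : Generates P r := by
  obtain ⟨δ, hδ, hA⟩ := h
  intro H hH B hB hH'
  refine top_of_density H hH (MaxRank P r) hδ hA B hB ?_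
  rintro p hp ⟨v', hv', hind⟩ hpB v hv σ hσ
  have h6 : v' = v := (above_iff hp hv v').1 hv'
  rw [h6] at hind
  exact hH' p hp hpB v hv hind σ hσ

theorem generates_of_generic {ι : Type} [Fintype ι] {n : ι → ℕ} {ℓ : ℕ} [Fact ℓ.Prime]
    (ρ : Reps Gal(AlgebraicClosure ℚ/ℚ) n ℓ) (hρ : Conts ρ) (w : ι → ℤ) (c : ℕ)
    (S : Set (HeightOneSpectrum (𝓞 ℚ))) (hS : S.Finite) (P : HeightOneSpectrum (𝓞 ℚ) → ι → ℚ[X])
    (hP : ∀ v ∉ S, ¬ Above v ℓ → ∀ i, GoodReduction ρ i (w i) v (P v i))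
    (hint : IntegralOutside S P c) {r : ℕ} (h : GenericElements ρ r) : Generates P r := by
  classical
  intro H hH B hB hH'
  by_contra hne
  obtain ⟨σ, hσ⟩ : ∃ σ : GK ℚ, σ ∉ H := by
    by_contra hcon
    push Not at hcon
    exact hne (Subgroup.ext fun x => ⟨fun _ => Subgroup.mem_top x, fun _ => hcon x⟩)
  have hW : IsOpen {g : GK ℚ | σ * g ∉ H} := hH.isOpen_compl.preimage (continuous_const_mul σ)
  have h1W : (1 : GK ℚ) ∈ {g : GK ℚ | σ * g ∉ H} := by simpa using hσ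
  obtain ⟨U, hU⟩ := ProfiniteGrp.exist_openNormalSubgroup_sub_open_nhds_of_one hW h1W
  have hUo : IsOpen (U.toSubgroup : Set (GK ℚ)) := U.isOpen'
  obtain ⟨(u : GK ℚ), hu, κ, z, hz, hind⟩ := h U.toSubgroup hUo σ
  have hℓ : ℓ.Prime := Fact.out
  obtain ⟨O, hO, hσO, hOv⟩ := Pool.Agent.N978.HP.exists_open ρ hρ w c (S ∪ {v | Above v ℓ}) P
    (fun v hv i => ⟨hP v (fun h => hv (Or.inl h)) (fun h => hv (Or.inr h)) i,
      hint v (fun h => hv (Or.inl h)) i⟩) (σ * u) κ z hz hind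
  obtain ⟨δ, hδ, hev⟩ := Pool.Agent.N978.HP.primes_pos (O ∩ {g : GK ℚ | g ∉ H})
    (hO.inter hH.isOpen_compl) ⟨σ * u, hσO, hU hu⟩ (B ∪ badSet S ℓ)
    (hB.union (badSet_finite S hS ℓ))
  obtain ⟨N, hN, hN4⟩ := (hev.and (Nat.tendsto_primeCounting.eventually_gt_atTop 0)).exists
  have hpos : (0 : ℝ) < δ * (Nat.primeCounting N : ℝ) := mul_pos hδ (by exact_mod_cast hN4)
  have hcard : 0 < Nat.card {p : ℕ // p ≤ N ∧ p ∈ {p : ℕ | p.Prime ∧ p ∉ B ∪ badSet S ℓ ∧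
      ∃ v : HeightOneSpectrum (𝓞 ℚ), (p : 𝓞 ℚ) ∈ v.asIdeal ∧
        ∃ σ : GK ℚ, IsFrob v σ ∧ σ⁻¹ ∈ O ∩ {g : GK ℚ | g ∉ H}}} := by
    exact_mod_cast hpos.trans_le hN
  obtain ⟨⟨p, -, hp, hpB, v, hv, φ, hφ, hφO, hφH⟩⟩ := (Nat.card_pos_iff.1 hcard).1
  have hbad : p ∉ badSet S ℓ := fun h => hpB (Or.inr h)
  obtain ⟨h1, -, h3⟩ := good_of_not_bad hp hbad
  have hvn : v ∉ S ∪ {v | Above v ℓ} := by
    rintro (h | h)
    · exact h3 v hv h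
    · exact h1 (Pool.Agent.R931.GD.above_inj hp hℓ hv h)
  obtain ⟨Q, hQ, hQv, hfr⟩ := id hφ
  obtain ⟨y, hy, hyind⟩ := hOv v hvn Q φ ⟨hQ.isPrime, hQv⟩ hfr hφO
  have h4 : φ ∈ H := hH' p hp (fun h => hpB (Or.inl h)) v hv
    ⟨y, fun k => ⟨P v (κ k), ⟨κ k, rfl⟩, hy k⟩, hyind⟩ φ hφ
  exact hφH (H.inv_mem h4)

theorem exists_of_generates {ι : Type} {P : HeightOneSpectrum (𝓞 ℚ) → ι → ℚ[X]} {r : ℕ}
    (h : Generates P r) (B : Set ℕ) (hB : B.Finite) :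
    ∃ p : ℕ, p.Prime ∧ p ∉ B ∧ ∃ v : HeightOneSpectrum (𝓞 ℚ), (p : 𝓞 ℚ) ∈ v.asIdeal ∧
      IndepRoots r (Set.range (P v)) := by
  by_contra hcon
  push Not at hcon
  exact bot_ne_top (h ⊥ isClosed_singleton B hB
    (fun p hp hpB v hv hind => absurd hind (hcon p hp hpB v hv)))

section center

variable {ι : Type} [Fintype ι] [DecidableEq ι] {n : ι → ℕ} {ℓ : ℕ} [hℓ : Fact ℓ.Prime]

/-- The elements of the Galois group which commute with `X`. -/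
def commSub {Γ : Type} [Group Γ]
    (ρ : ∀ i, Representation ℚ_[ℓ] Γ (Fin (n i) → ℚ_[ℓ]))
    (X : End ℚ_[ℓ] (∀ i, Fin (n i) → ℚ_[ℓ])) : Subgroup Γ where
  carrier := {γ | X * sumRep ρ γ = sumRep ρ γ * X}
  mul_mem' := by
    intro a b ha hb
    show X * sumRep ρ (a * b) = sumRep ρ (a * b) * X
    have ha' : X * sumRep ρ a = sumRep ρ a * X := ha
    have hb' : X * sumRep ρ b = sumRep ρ b * X := hb
    rw [map_mul, ← mul_assoc, ha', mul_assoc, hb', ← mul_assoc]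
  one_mem' := by
    show X * sumRep ρ 1 = sumRep ρ 1 * X
    rw [map_one, mul_one, one_mul]
  inv_mem' := by
    intro a ha
    show X * sumRep ρ a⁻¹ = sumRep ρ a⁻¹ * X
    have ha' : X * sumRep ρ a = sumRep ρ a * X := ha
    have h1 : sumRep ρ a⁻¹ * sumRep ρ a = 1 := by rw [← map_mul, inv_mul_cancel, map_one]
    have h2 : sumRep ρ a * sumRep ρ a⁻¹ = 1 := by rw [← map_mul, mul_inv_cancel, map_one]
    calc X * sumRep ρ a⁻¹ = (sumRep ρ a⁻¹ * sumRep ρ a) * X * sumRep ρ a⁻¹ := by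
          rw [h1, one_mul]
      _ = sumRep ρ a⁻¹ * (sumRep ρ a * X) * sumRep ρ a⁻¹ := by rw [mul_assoc (sumRep ρ a⁻¹)]
      _ = sumRep ρ a⁻¹ * X * (sumRep ρ a * sumRep ρ a⁻¹) := by
          rw [← ha']
          simp only [mul_assoc]
      _ = sumRep ρ a⁻¹ * X := by rw [h2, mul_one]

theorem mem_commSub {Γ : Type} [Group Γ]
    {ρ : ∀ i, Representation ℚ_[ℓ] Γ (Fin (n i) → ℚ_[ℓ])}
    {X : End ℚ_[ℓ] (∀ i, Fin (n i) → ℚ_[ℓ])} {γ : Γ} :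
    γ ∈ commSub ρ X ↔ X * sumRep ρ γ = sumRep ρ γ * X := Iff.rfl

theorem commSub_closed {Γ : Type} [Group Γ] [TopologicalSpace Γ] [IsTopologicalGroup Γ]
    {ρ : ∀ i, Representation ℚ_[ℓ] Γ (Fin (n i) → ℚ_[ℓ])}
    (hρ : ∀ i, Continuous fun g => LinearMap.toMatrix' (ρ i g))
    (X : End ℚ_[ℓ] (∀ i, Fin (n i) → ℚ_[ℓ])) : IsClosed (commSub ρ X : Set Γ) := by
  have h0 : ∀ x, Continuous fun γ => sumRep ρ γ x := fun x =>
    continuous_pi fun i => continuous_apply (hρ i) (x i)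
  have h1 : (commSub ρ X : Set Γ) = ⋂ x, {γ | X (sumRep ρ γ x) = sumRep ρ γ (X x)} := by
    ext γ
    rw [SetLike.mem_coe, mem_commSub, Set.mem_iInter, LinearMap.ext_iff]
    rfl
  rw [h1]
  refine isClosed_iInter fun x => ?_
  have hX : Continuous X := LinearMap.continuous_of_finiteDimensional X
  exact isClosed_eq (hX.comp (h0 x)) (h0 (X x))

/-- **The center of the Lie algebra of the Tate tensors acts by scalars on the summands**, if the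
Frobenius elements of maximal rank generate a dense subgroup. -/
theorem center_main
    (ρ : ∀ i, Representation ℚ_[ℓ] Gal(AlgebraicClosure ℚ/ℚ) (Fin (n i) → ℚ_[ℓ]))
    (hρ : ∀ i, Continuous fun g => LinearMap.toMatrix' (ρ i g)) (w : ι → ℤ)
    (S : Set (HeightOneSpectrum (𝓞 ℚ))) (hS : S.Finite)
    (P : HeightOneSpectrum (𝓞 ℚ) → ι → ℚ[X])
    (hP : ∀ v ∉ S, ¬ Above v ℓ → ∀ i, GoodReduction ρ i (w i) v (P v i))
    (𝔤 : Submodule ℚ_[ℓ] (End ℚ_[ℓ] (∀ i, Fin (n i) → ℚ_[ℓ]))) (h𝔤 : IsMotivic ρ 𝔤) {r : ℕ}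
    (hrk : RankAtMost 𝔤 r) (hss : FiniteIndexSemisimple (sumRep ρ))
    {L : Submodule ℚ_[ℓ] (End ℚ_[ℓ] (∀ i, Fin (n i) → ℚ_[ℓ]))}
    (hLT : ∀ X, X ∈ L ↔ ∀ (m : ℕ) (φ : Tensor ℚ_[ℓ] (∀ i, Fin (n i) → ℚ_[ℓ]) m),
      TateTensor (sumRep ρ) φ → KillsTensor X φ) (hLG : L ≤ 𝔤)
    (hgen : Generates P r) {X : End ℚ_[ℓ] (∀ i, Fin (n i) → ℚ_[ℓ])} (hX : X ∈ L) (hXc : ∀ Y ∈ L, Y * X = X * Y) :
    ∃ c : ι → ℚ_[ℓ], ∀ x i, X x i = c i • x i := by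
  classical
  have h := inputs
  have h2 := inputs2
  obtain ⟨j⟩ := exists_emb ℓ
  let alg : Algebra ℚ_[ℓ] ℂ := (j.comp (algebraMap ℚ_[ℓ] (PadicAlgCl ℓ))).toAlgebra
  have hL : ∀ X, X ∈ L ↔ X ∈ LT (sumRep ρ) := fun X =>
    ⟨fun hX => mem_LT_of_semisimple (sumRep ρ) hss ((hLT X).1 hX), fun hX => (hLT X).2 hX.2⟩
  -- a Frobenius element of maximal rank
  have htor : ∀ (v : HeightOneSpectrum (𝓞 ℚ)), v ∉ S → ¬ Above v ℓ →
      IndepRoots r (Set.range (P v)) → ∀ (Q : Ideal (OO ℚ)), Q.IsPrime → cm Q = v.asIdeal →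
      ∀ φ, FrobAt (Ideal.absNorm v.asIdeal) Q φ →
        X.baseChange ℂ ∈ tor ((sumRep ρ φ⁻¹).baseChange ℂ) := by
    rintro v hvS hvℓ ⟨z, hz, hzind⟩ Q hQ hQv φ hφ
    have hchar : ∀ i, (ρ i φ⁻¹).charpoly = (P v i).map (algebraMap ℚ ℚ_[ℓ]) := fun i =>
      ((hP v hvS hvℓ i).2 Q ⟨hQ, hQv⟩ φ).2 hφ
    have hz' : ∀ j, End.HasEigenvalue ((sumRep ρ φ⁻¹).baseChange ℂ) (z j) := by
      intro j
      obtain ⟨_, ⟨i, rfl⟩, hi⟩ := hz j
      exact sumRep_eigen ρ φ⁻¹ (hchar i) hi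
    have hcen := torus_cen (sumRep ρ) h h2.jord h2.cartan hL hLG h𝔤.bracket h𝔤.nondeg h𝔤.algebraic
      hrk φ⁻¹ z hz' hzind
    refine hcen _ (mem_bcS (hLG hX)) fun a ha => ?_
    exact bcS_comm hXc a (tor_le (sumRep ρ) h hL φ⁻¹ ha)
  -- data at good primes of maximal rank
  have hdata : ∀ p : ℕ, p.Prime → p ∉ badSet S ℓ →
      ∀ v : HeightOneSpectrum (𝓞 ℚ), (p : 𝓞 ℚ) ∈ v.asIdeal → v ∉ S ∧ ¬ Above v ℓ := by
    intro p hp hbad v hv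
    obtain ⟨h1, -, h3⟩ := good_of_not_bad hp hbad
    exact ⟨h3 v hv, fun h4 => h1 (Pool.Agent.R931.GD.above_inj hp hℓ.out hv h4)⟩
  have htop : commSub ρ X = ⊤ := by
    refine hgen _ (commSub_closed hρ X) (badSet S ℓ)
      (badSet_finite S hS ℓ) fun p hp hbad v hv hind σ hσ => ?_
    obtain ⟨hvS, hvℓ⟩ := hdata p hp hbad v hv
    obtain ⟨Q, hQ, hQv, hfr⟩ := hσ
    have h1 := tor_commutes (htor v hvS hvℓ hind Q hQ.isPrime hQv σ hfr)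
    rw [← bc_mul, ← bc_mul] at h1
    have h3 : σ⁻¹ ∈ commSub ρ X := bc_inj h1
    exact (Subgroup.inv_mem_iff _).1 h3
  obtain ⟨p, hp, hbad, v, hv, hind⟩ := exists_of_generates hgen _ (badSet_finite S hS ℓ)
  obtain ⟨hvS, hvℓ⟩ := hdata p hp hbad v hv
  obtain ⟨Q, φ, hQ, hQv, hφ⟩ := frob_cm v
  exact center_scalar h ρ hρ w S hS P hP alg j (fun x => rfl) X
    (fun x i => h𝔤.parts X (hLG hX) x i)
    (fun γ => by
      have h1 : γ ∈ commSub ρ X := by rw [htop]; exact Subgroup.mem_top γ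
      exact h1) v hvS hvℓ Q hQ.isPrime hQv φ hφ (htor v hvS hvℓ hind Q hQ.isPrime hQv φ hφ)

end center

end Pool.Agent.Helper49B
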