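import Pool.Agent.Y114.RM.Stm

/-!
# Diagonalizable operators: components of the elements of stable subspaces
-/

set_option autoImplicit false

namespace Pool.Agent.Helper49B

open Module Pool.Agent.Y114.RM

section diag

variable {E : Type} [AddCommGroup E] [Module ℂ E] {T : End ℂ E}

/-- The component of an element of a stable subspace for an eigenvalue. -/
theorem exists_component [FiniteDimensional ℂ E] (hT : ⨆ μ, End.eigenspace T μ = ⊤)
    {L : Submodule ℂ E} (hL : ∀ x ∈ L, T x ∈ L) (ν : ℂ) {x : E} (hx : x ∈ L) :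
    ∃ y ∈ L, T y = ν • y ∧ ∀ ℓ : E →ₗ[ℂ] ℂ,
      (∀ μ, μ ≠ ν → ∀ z ∈ L, T z = μ • z → ℓ z = 0) → ℓ x = ℓ y := by
  have h1 := Submodule.inf_iSup_genEigenspace (p := L) (f := T) hL 1
  have h2 : ⨆ μ : ℂ, T.genEigenspace μ 1 = ⊤ := hT
  rw [h2, inf_top_eq] at h1
  have hx' : x ∈ ⨆ μ : ℂ, L ⊓ T.genEigenspace μ 1 := h1 ▸ hx
  clear hx
  induction hx' using Submodule.iSup_induction' with
  | mem μ x hx =>
    obtain ⟨hxL, hxμ⟩ := Submodule.mem_inf.1 hx
    have hxμ' : T x = μ • x := Module.End.mem_eigenspace_iff.1 hxμ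
    by_cases hμ : μ = ν
    · exact ⟨x, hxL, hμ ▸ hxμ', fun ℓ _ => rfl⟩
    · refine ⟨0, L.zero_mem, by rw [map_zero, smul_zero], fun ℓ hℓ => ?_⟩
      rw [map_zero]
      exact hℓ μ hμ x hxL hxμ'
  | zero => exact ⟨0, L.zero_mem, by rw [map_zero, smul_zero], fun ℓ _ => rfl⟩
  | add x x' hx hx' h h' =>
    obtain ⟨y, hy, hy1, hy2⟩ := h
    obtain ⟨y', hy', hy1', hy2'⟩ := h'
    refine ⟨y + y', L.add_mem hy hy', by rw [map_add, hy1, hy1', smul_add], fun ℓ hℓ => ?_⟩
    rw [map_add, map_add, hy2 ℓ hℓ, hy2' ℓ hℓ]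

/-- A diagonalizable operator whose square kills an element kills it. -/
theorem eq_zero_of_sq (hT : ⨆ μ, End.eigenspace T μ = ⊤) {z : E} (hzz : T (T z) = 0) :
    T z = 0 := by
  have hz : z ∈ ⨆ μ : ℂ, T.genEigenspace μ 1 := by
    rw [show (⨆ μ : ℂ, T.genEigenspace μ 1) = ⊤ from hT]
    trivial
  have hind := Module.End.independent_genEigenspace T (1 : ℕ∞)
  classical
  obtain ⟨f, hf⟩ := (Submodule.mem_iSup_iff_exists_dfinsupp' (fun μ : ℂ => T.genEigenspace μ 1)
    z).1 hz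
  have hTf : ∀ μ, T (f μ : E) = μ • (f μ : E) := fun μ => Module.End.mem_eigenspace_iff.1 (f μ).2
  have h3 : T (T z) = f.sum fun μ xμ => (μ * μ) • (xμ : E) := by
    rw [← hf, DFinsupp.sum, map_sum, map_sum, DFinsupp.sum]
    refine Finset.sum_congr rfl fun μ _ => ?_
    rw [hTf, map_smul, hTf, smul_smul]
  rw [hzz] at h3
  have h7 := iSupIndep.dfinsupp_lsum_injective hind
  let g : Π₀ μ, T.genEigenspace μ 1 := ∑ μ ∈ f.support, DFinsupp.single μ ((μ * μ) • f μ)
  have hg : DFinsupp.lsum ℕ (fun μ => (T.genEigenspace μ 1).subtype) g = 0 := by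
    rw [map_sum]
    simp only [DFinsupp.lsum_single]
    rw [h3, DFinsupp.sum]
    exact Finset.sum_congr rfl fun μ _ => rfl
  have hg0 : g = 0 := h7 (by rw [hg, map_zero])
  have h4 : ∀ μ ∈ f.support, (μ * μ) • (f μ : E) = 0 := by
    intro μ hμ
    have h8 := DFunLike.congr_fun hg0 μ
    rw [DFinsupp.finsetSum_apply] at h8
    rw [Finset.sum_eq_single μ] at h8
    · rw [DFinsupp.single_eq_same] at h8
      exact congrArg Subtype.val h8
    · intro ν _ hν
      exact DFinsupp.single_eq_of_ne (fun h => hν h.symm)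
    · intro h
      exact absurd hμ h
  rw [← hf, DFinsupp.sum, map_sum]
  refine Finset.sum_eq_zero fun μ hμ => ?_
  have h5 := h4 μ hμ
  rw [hTf]
  by_cases hμ0 : μ = 0
  · rw [hμ0, zero_smul]
  · rw [mul_smul] at h5
    exact (smul_eq_zero.1 h5).resolve_left hμ0

end diag

end Pool.Agent.Helper49B
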