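import Pool.Agent.Helper49B.Psi2

/-!
# The eigenvalues of an operator which commutes with the Galois group
-/

set_option autoImplicit false
set_option linter.unusedSectionVars false

namespace Pool.Agent.Helper49B

open NumberField IsDedekindDomain Module Polynomial Pool.Agent.Y114.RM Pool.Agent.Y114.GF
  Pool.Agent.W569.FM Pool.Agent.W571.FM Pool.Agent.Y115.Chi Pool.Agent.Y115.CQ Pool.Agent.Y115.T
  Pool.Agent.TH118.SG Pool.Agent.K3h67.LN

section proj

variable {F : Type} [Field F] [IsAlgClosed F] {n : ℕ}

theorem aeval_comm {R : Type} [Ring R] [Algebra F R] {A M : R} (h : A * M = M * A) (q : F[X]) :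
    aeval A q * M = M * aeval A q := by
  induction q using Polynomial.induction_on' with
  | add p q hp hq => rw [map_add, add_mul, mul_add, hp, hq]
  | monomial k a =>
    have h1 : A ^ k * M = M * A ^ k := (Commute.pow_left (h : Commute A M) k)
    rw [aeval_monomial, mul_assoc, h1, ← mul_assoc, ← mul_assoc, Algebra.commutes]

/-- The projector onto an eigenspace of a diagonalizable matrix. -/
theorem exists_projector (j : F →+* ℂ) (A : Matrix (Fin n) (Fin n) F)
    (hdiag : ⨆ μ, End.eigenspace (Matrix.toLin' (A.map j)) μ = ⊤) {μ : ℂ}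
    (hμ : End.HasEigenvalue (Matrix.toLin' (A.map j)) μ) :
    ∃ B : Matrix (Fin n) (Fin n) F, B * B = B ∧ (∀ M, A * M = M * A → B * M = M * B) ∧
      (∀ x, Matrix.toLin' (B.map j) x ∈ End.eigenspace (Matrix.toLin' (A.map j)) μ) ∧
      ∀ x ∈ End.eigenspace (Matrix.toLin' (A.map j)) μ, Matrix.toLin' (B.map j) x = x := by
  classical
  set T : End ℂ (Fin n → ℂ) := Matrix.toLin' (A.map j) with hT
  have hroot : ∀ ν, T.HasEigenvalue ν → ∃ c ∈ A.charpoly.roots.toFinset, j c = ν := by
    intro ν hν
    have h1 : T.charpoly.IsRoot ν := (Module.End.hasEigenvalue_iff_isRoot_charpoly T ν).1 hν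
    have h2 : T.charpoly = A.charpoly.map j := by
      rw [hT, Matrix.charpoly_toLin', Matrix.charpoly_map]
    have h3 : A.charpoly.Splits := IsAlgClosed.splits _
    have h4 : A.charpoly.Monic := Matrix.charpoly_monic A
    have h5 : ν ∈ (A.charpoly.map j).roots := by
      rw [mem_roots (h4.map j).ne_zero, ← h2]
      exact h1
    rw [h3.roots_map] at h5
    obtain ⟨c, hc, rfl⟩ := Multiset.mem_map.1 h5
    exact ⟨c, Multiset.mem_toFinset.2 hc, rfl⟩
  obtain ⟨c, hcs, hcμ⟩ := hroot μ hμ
  set s := A.charpoly.roots.toFinset with hs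
  set q : F[X] := Lagrange.basis s id c with hq
  have hBT : Matrix.toLin' ((aeval A q).map j) = aeval T (q.map j) := by
    have h1 : (aeval A q).map j = aeval (A.map j) (q.map j) := by
      have h2 := Polynomial.map_aeval_eq_aeval_map (R := F) (S := Matrix (Fin n) (Fin n) F) (T := ℂ)
        (U := Matrix (Fin n) (Fin n) ℂ) (φ := j) (ψ := j.mapMatrix) (by
          ext x a b
          simp [Matrix.algebraMap_matrix_apply, Matrix.map_apply]
          split_ifs <;> simp) q A
      exact h2
    rw [h1, hT]
    exact (Polynomial.aeval_algHom_apply (Matrix.toLinAlgEquiv' : Matrix (Fin n) (Fin n) ℂ ≃ₐ[ℂ] _)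
      (A.map j) (q.map j)).symm
  have hB : ∀ ν x, x ∈ End.eigenspace T ν → Matrix.toLin' ((aeval A q).map j) x =
      if ν = μ then x else 0 := by
    intro ν x hx
    by_cases hx0 : x = 0
    · rw [hx0, map_zero, ite_self]
    have hev : T.HasEigenvector ν x := ⟨hx, hx0⟩
    obtain ⟨c', hc', rfl⟩ := hroot ν (Module.End.hasEigenvalue_of_hasEigenvector hev)
    rw [hBT, Module.End.aeval_apply_of_hasEigenvector hev, eval_map, eval₂_at_apply]
    by_cases h : c' = c
    · have h1 : eval c' q = 1 := by
        rw [h, hq]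
        exact Lagrange.eval_basis_self (v := id) (Set.injOn_id _) hcs
      rw [h1, map_one, one_smul, h, hcμ, if_pos rfl]
    · have h1 : eval c' q = 0 := Lagrange.eval_basis_of_ne (v := id) (fun h' => h h'.symm) hc'
      have h2 : j c' ≠ μ := by
        rw [← hcμ]
        exact fun h' => h (j.injective h')
      rw [h1, map_zero, zero_smul, if_neg h2]
  have hall : ∀ x, Matrix.toLin' ((aeval A q).map j) x ∈ End.eigenspace T μ := by
    intro x
    have hx : x ∈ ⨆ ν, End.eigenspace T ν := by rw [hdiag]; trivial
    refine Submodule.iSup_induction (fun ν => End.eigenspace T ν)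
      (motive := fun x => Matrix.toLin' ((aeval A q).map j) x ∈ End.eigenspace T μ) hx ?_ ?_ ?_
    · intro ν x hx
      rw [hB ν x hx]
      split_ifs with h
      · rw [← h]; exact hx
      · exact Submodule.zero_mem _
    · rw [map_zero]; exact Submodule.zero_mem _
    · intro x y hx hy
      rw [map_add]
      exact Submodule.add_mem _ hx hy
  have hid : ∀ x ∈ End.eigenspace T μ, Matrix.toLin' ((aeval A q).map j) x = x := by
    intro x hx
    rw [hB μ x hx, if_pos rfl]
  refine ⟨aeval A q, ?_, fun M hM => aeval_comm hM q, hall, hid⟩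
  apply Matrix.map_injective j.injective
  show (aeval A q * aeval A q).map j = (aeval A q).map j
  rw [Matrix.map_mul]
  apply Matrix.toLin'.injective
  rw [Matrix.toLin'_mul]
  refine LinearMap.ext fun x => ?_
  rw [LinearMap.comp_apply]
  exact hid _ (hall x)

end proj

end Pool.Agent.Helper49B
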