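import Pool.Agent.Helper49B.Eig

/-!
# The eigenvalues of an operator which commutes with the Galois group, II
-/

set_option autoImplicit false
set_option linter.unusedSectionVars false

namespace Pool.Agent.Helper49B

open NumberField IsDedekindDomain Module Polynomial Pool.Agent.Y114.RM Pool.Agent.Y114.GF
  Pool.Agent.W569.FM Pool.Agent.W571.FM Pool.Agent.Y115.Chi Pool.Agent.Y115.CQ Pool.Agent.Y115.T
  Pool.Agent.TH118.SG Pool.Agent.K3h67.LN

theorem ext0_zpow (θ : Additive ℂˣ →+ ℂ) {x : ℂ} (hx : x ≠ 0) (k : ℤ) :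
    ext0 θ (x ^ k) = k * ext0 θ x := by
  rw [ext0_ne θ hx, ext0_ne θ (zpow_ne_zero k hx)]
  have h1 : Units.mk0 (x ^ k) (zpow_ne_zero k hx) = (Units.mk0 x hx) ^ k := by
    apply Units.ext
    rw [Units.val_mk0, Units.val_zpow_eq_zpow_val, Units.val_mk0]
  rw [h1, ofMul_zpow, map_zsmul, zsmul_eq_mul]

section eig

variable {ℓ : ℕ} [hℓ : Fact ℓ.Prime] {n : ℕ}

/-- The eigenvalues of an operator attached to a Frobenius element at `p`, if the operator commutes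
with the Galois group, are determined by the weight. -/
theorem one_eigen (h : Inputs) (r : Representation ℚ_[ℓ] (GF ℚ) (Fin n → ℚ_[ℓ]))
    (hr : Continuous fun g => LinearMap.toMatrix' (r g)) (j : PadicAlgCl ℓ →+* ℂ)
    (S : Set (HeightOneSpectrum (𝓞 ℚ))) (hS : S.Finite) (P : HeightOneSpectrum (𝓞 ℚ) → ℚ[X])
    (hP : ∀ v ∉ S, ¬ Above v ℓ → ∀ Q : Ideal (OO ℚ), Q.IsPrime → cm Q = v.asIdeal → ∀ g,
      FrobAt (Ideal.absNorm v.asIdeal) Q g → (r g⁻¹).charpoly = (P v).map (algebraMap ℚ ℚ_[ℓ]))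
    (A : Matrix (Fin n) (Fin n) ℚ_[ℓ])
    (hA : ∀ g, A * LinearMap.toMatrix' (r g) = LinearMap.toMatrix' (r g) * A)
    (v : HeightOneSpectrum (𝓞 ℚ)) (hvS : v ∉ S) (hvℓ : ¬ Above v ℓ) {w : ℤ}
    (hw : ∀ a ∈ (P v).aroots ℂ, ‖a‖ ^ 2 = (q v : ℝ) ^ w)
    (Q : Ideal (OO ℚ)) (hQ : Q.IsPrime) (hQv : cm Q = v.asIdeal) (g : GF ℚ)
    (hg : FrobAt (Ideal.absNorm v.asIdeal) Q g) {θ : Additive ℂˣ →+ ℂ}
    (hop : IsOp θ (Matrix.toLin' ((mt r g⁻¹).map j)) (Matrix.toLin'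
      ((A.map (algebraMap ℚ_[ℓ] (PadicAlgCl ℓ))).map j)))
    (μ : ℂ) (hμ : End.HasEigenvalue (Matrix.toLin'
      ((A.map (algebraMap ℚ_[ℓ] (PadicAlgCl ℓ))).map j)) μ) :
    2 * μ = w * ext0 θ (q v : ℂ) := by
  classical
  set A' : Matrix (Fin n) (Fin n) (PadicAlgCl ℓ) := A.map (algebraMap ℚ_[ℓ] (PadicAlgCl ℓ)) with hA'
  set T : End ℂ (Fin n → ℂ) := Matrix.toLin' (A'.map j) with hT
  set G : End ℂ (Fin n → ℂ) := Matrix.toLin' ((mt r g⁻¹).map j) with hG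
  -- `G` is invertible
  have hinj : Function.Injective G := by
    have h1 : (Matrix.toLin' ((mt r g).map j) : End ℂ (Fin n → ℂ)) * G = 1 := by
      rw [hG]
      show Matrix.toLin' ((mt r g).map j) ∘ₗ Matrix.toLin' ((mt r g⁻¹).map j) = _
      rw [← Matrix.toLin'_mul, ← Matrix.map_mul, ← mt_mul, mul_inv_cancel, mt_one]
      rw [← RingHom.mapMatrix_apply, map_one, Matrix.toLin'_one]
      rfl
    intro x y hxy
    have h2 := congrArg (Matrix.toLin' ((mt r g).map j)) hxy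
    have h3 : ∀ z, Matrix.toLin' ((mt r g).map j) (G z) = z := fun z => LinearMap.congr_fun h1 z
    rwa [h3, h3] at h2
  -- `T` is diagonalizable
  have hdiag : ⨆ ν, End.eigenspace T ν = ⊤ := tor_diag G T ⟨θ, hop⟩
  obtain ⟨B, hB, hBc, hBU, hUB⟩ := exists_projector j A' hdiag hμ
  have hAmt : ∀ g, A' * mt r g = mt r g * A' := by
    intro g
    rw [hA', mt, ← RingHom.mapMatrix_apply, ← RingHom.mapMatrix_apply, ← map_mul, hA, map_mul]
  have hc : ∀ g, B * mt r g = mt r g * B := fun g => hBc _ (hAmt g)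
  set U : Submodule ℂ (Fin n → ℂ) := End.eigenspace T μ with hUdef
  have hU : ∀ g, ∀ x ∈ U, Matrix.toLin' ((mt r g).map j) x ∈ U := by
    intro g x hx
    rw [hUdef, End.mem_eigenspace_iff] at hx ⊢
    have h1 : T (Matrix.toLin' ((mt r g).map j) x) = Matrix.toLin' ((mt r g).map j) (T x) := by
      rw [hT, ← LinearMap.comp_apply, ← LinearMap.comp_apply, ← Matrix.toLin'_mul,
        ← Matrix.toLin'_mul, ← Matrix.map_mul, ← Matrix.map_mul, hAmt]
    rw [h1, hx, map_smul]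
  obtain ⟨N, a, hN, hNa⟩ := psi_pow r hB hc j hr hBU hUB hU S hS P hP
  have hPg := hP v hvS hvℓ Q hQ hQv g hg
  obtain ⟨C, hC, hle, hCj⟩ := psi_roots r hB hc j hBU hUB g⁻¹ (hU _) hPg
  obtain ⟨p, hp, hpv⟩ := Pool.Agent.R931.IR.exists_prime v
  have hnorm : Ideal.absNorm v.asIdeal = p := Pool.Agent.R931.IR.absNorm_eq hp hpv
  have hq : q v = p := hnorm
  have hpℓ : p ≠ ℓ := by
    rintro rfl
    exact hvℓ hpv
  have hpQ : (p : OO ℚ) ∈ Q := by
    rw [← natCast_mem_cm, hQv]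
    exact hpv
  -- the value of the cyclotomic character
  have hchi : (chiE ℓ (PadicAlgCl ℓ) g : PadicAlgCl ℓ) = (p : PadicAlgCl ℓ) :=
    chiE_frob ℓ hp hpℓ hQ hpQ (by rwa [hnorm] at hg)
  have hchi' : (chiE ℓ (PadicAlgCl ℓ) g⁻¹ : PadicAlgCl ℓ) = ((p : PadicAlgCl ℓ))⁻¹ := by
    rw [map_inv, Units.val_inv_eq_inv_val, hchi]
  set D : ℂ := j (psi0 r hB hc g⁻¹) with hD
  have hDN : D ^ N = (p : ℂ) ^ (-a) := by
    rw [hD, ← map_pow, hNa, hchi', map_zpow₀, map_inv₀, map_natCast, inv_zpow, zpow_neg]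
  have hp0 : (p : ℂ) ≠ 0 := Nat.cast_ne_zero.2 hp.ne_zero
  have hD0 : D ≠ 0 := by
    intro h0
    rw [h0, zero_pow hN.ne'] at hDN
    exact zpow_ne_zero _ hp0 hDN.symm
  -- the weight
  have hp1 : (1 : ℝ) < (p : ℝ) := by exact_mod_cast hp.one_lt
  have hnormD : ‖D‖ ^ 2 = ((p : ℝ) ^ w) ^ (finrank ℂ U) := by
    rw [hCj, Pool.Agent.Y115.M.norm_multiset_prod C ((p : ℝ) ^ w), hC]
    intro b hb
    have h1 := hw b (Multiset.mem_of_le hle hb)
    rwa [hq] at h1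
  have hexp : w * finrank ℂ U * N = -a * 2 := by
    have h2 : ‖D‖ ^ N = (p : ℝ) ^ (-a) := by
      rw [← norm_pow, hDN, norm_zpow]
      simp
    have h3 : (p : ℝ) ^ (w * finrank ℂ U * N) = (p : ℝ) ^ (-a * 2) := by
      rw [zpow_mul, zpow_mul (p : ℝ) w, zpow_natCast, zpow_natCast, ← hnormD,
        zpow_mul (p : ℝ) (-a), ← h2, ← pow_mul]
      have h4 : (2 : ℤ) = ((2 : ℕ) : ℤ) := rfl
      rw [h4, zpow_natCast, ← pow_mul, mul_comm]
    exact zpow_right_injective₀ (by linarith) hp1.ne' h3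
  -- the relation
  have hrel := eigen_relation h hinj hop μ (hU g⁻¹)
  have hdet : LinearMap.det (G.restrict (hU g⁻¹)) = D := by
    rw [hD, psi0_apply, det_map j _ _ U (hU g⁻¹) hBU hUB]
  rw [hdet] at hrel
  have h1 := ext0_pow θ D hN
  rw [hDN, ext0_zpow θ hp0] at h1
  rw [hq]
  have hfr : (finrank ℂ U : ℂ) ≠ 0 := by
    intro h0
    have h2 : finrank ℂ U = 0 := by exact_mod_cast h0
    exact hμ (Submodule.finrank_eq_zero.1 h2)
  have hN0 : (N : ℂ) ≠ 0 := Nat.cast_ne_zero.2 hN.ne'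
  have hexpC : (w : ℂ) * (finrank ℂ U : ℂ) * (N : ℂ) = -(a : ℂ) * 2 := by exact_mod_cast hexp
  have h4 : (2 * μ - w * ext0 θ (p : ℂ)) * ((finrank ℂ U : ℂ) * (N : ℂ)) = 0 := by
    have h5 : (N : ℂ) * (μ * (finrank ℂ U : ℂ)) = -(a : ℂ) * ext0 θ (p : ℂ) := by
      rw [hrel, ← h1]
      push_cast
      ring
    linear_combination 2 * h5 - ext0 θ (p : ℂ) * hexpC
  exact sub_eq_zero.1 ((mul_eq_zero.1 h4).resolve_right (mul_ne_zero hfr hN0))

end eig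

end Pool.Agent.Helper49B
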