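import Pool.Agent.Helper49B.Eig2
import Pool.Agent.Helper49A.Place

/-!
# The operators on the summands
-/

set_option autoImplicit false
set_option linter.unusedSectionVars false

namespace Pool.Agent.Helper49B

open NumberField IsDedekindDomain Module Polynomial TensorProduct Pool.Agent.Y114.RM
  Pool.Agent.Y114.GF Pool.Agent.Y114.TF Pool.Agent.W569.FM Pool.Agent.W571.FM

section emb

variable {ι : Type} [Fintype ι] [DecidableEq ι] {n : ι → ℕ} {k : Type} [Field k] [Algebra k ℂ]

/-- The inclusion of a summand, over the complex numbers. -/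
noncomputable def emb (k : Type) [Field k] [Algebra k ℂ] (i : ι) :
    (Fin (n i) → ℂ) →ₗ[ℂ] ℂ ⊗[k] (∀ i, Fin (n i) → k) :=
  Fintype.linearCombination ℂ fun a : Fin (n i) =>
    (1 : ℂ) ⊗ₜ[k] (Pi.single i (Pi.single a (1 : k)) : ∀ i, Fin (n i) → k)

theorem emb_injective (i : ι) : Function.Injective (emb (n := n) k i) := by
  have h1 : LinearIndependent ℂ fun a : Fin (n i) =>
      (1 : ℂ) ⊗ₜ[k] (Pi.single i (Pi.single a (1 : k)) : ∀ i, Fin (n i) → k) := by
    let b : Basis (Σ i, Fin (n i)) k (∀ i, Fin (n i) → k) :=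
      Pi.basis fun i => Pi.basisFun k (Fin (n i))
    have h2 := (b.baseChange ℂ).linearIndependent.comp (fun a : Fin (n i) => (⟨i, a⟩ : Σ i, Fin (n i)))
      (fun a a' h => by
        have h3 := (Sigma.mk.inj_iff.1 h).2
        exact eq_of_heq h3)
    convert h2 using 1
    funext a
    rw [Function.comp_apply, Basis.baseChange_apply]
    congr 1
    simp [b, Pi.basis_apply]
  exact linearIndependent_iff_injective_fintypeLinearCombination.1 h1

theorem emb_comm (i : ι) (Y : End k (∀ i, Fin (n i) → k)) (Yi : End k (Fin (n i) → k))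
    (hY : ∀ x, Y (Pi.single i x) = Pi.single i (Yi x)) (u : Fin (n i) → ℂ) :
    emb k i (Matrix.toLin' ((LinearMap.toMatrix' Yi).map (algebraMap k ℂ)) u) =
      (Y.baseChange ℂ) (emb k i u) := by
  have h1 : emb k i ∘ₗ Matrix.toLin' ((LinearMap.toMatrix' Yi).map (algebraMap k ℂ)) =
      (Y.baseChange ℂ) ∘ₗ emb k i := by
    refine LinearMap.pi_ext' fun b => LinearMap.ext_ring ?_
    show emb k i (Matrix.toLin' _ (Pi.single b 1)) = (Y.baseChange ℂ) (emb k i (Pi.single b 1))
    have h2 : emb (n := n) k i (Pi.single b 1) =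
        (1 : ℂ) ⊗ₜ[k] (Pi.single i (Pi.single b (1 : k)) : ∀ i, Fin (n i) → k) := by
      rw [emb, Fintype.linearCombination_apply, Finset.sum_eq_single b, Pi.single_eq_same, one_smul]
      · intro a _ hab
        rw [Pi.single_eq_of_ne hab, zero_smul]
      · intro h; exact absurd (Finset.mem_univ b) h
    rw [h2, LinearMap.baseChange_tmul, hY, emb, Fintype.linearCombination_apply]
    have h3 : Yi (Pi.single b 1) = ∑ a, LinearMap.toMatrix' Yi a b • (Pi.single a (1 : k) : Fin (n i) → k) := by
      funext a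
      rw [Finset.sum_apply, Finset.sum_eq_single a]
      · rw [Pi.smul_apply, Pi.single_eq_same, smul_eq_mul, mul_one, LinearMap.toMatrix'_apply]
      · intro c _ hc
        rw [Pi.smul_apply, Pi.single_eq_of_ne (Ne.symm hc), smul_zero]
      · intro h; exact absurd (Finset.mem_univ a) h
    have h4 : (Pi.single i (Yi (Pi.single b 1)) : ∀ i, Fin (n i) → k) =
        ∑ a, LinearMap.toMatrix' Yi a b • (Pi.single i (Pi.single a (1 : k)) : ∀ i, Fin (n i) → k) := by
      rw [h3]
      have h5 := map_sum (LinearMap.single k (fun i => Fin (n i) → k) i)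
        (fun a => LinearMap.toMatrix' Yi a b • (Pi.single a (1 : k) : Fin (n i) → k)) Finset.univ
      rw [LinearMap.single_apply] at h5
      rw [h5]
      refine Finset.sum_congr rfl fun a _ => ?_
      rw [map_smul, LinearMap.single_apply]
    rw [h4, TensorProduct.tmul_sum]
    refine Finset.sum_congr rfl fun a _ => ?_
    rw [Matrix.toLin'_apply, Matrix.mulVec_single_one, Matrix.col_apply, Matrix.map_apply,
      TensorProduct.tmul_smul, algebraMap_smul]
  exact LinearMap.congr_fun h1 u

end emb

end Pool.Agent.Helper49B
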