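import Mathlib
import Pool.Agent.Y114.RM.Torus
import Pool.Agent.Y115.Lin

/-!
# Operators attached to additive functions: restriction to eigenspaces
-/

set_option autoImplicit false
set_option linter.unusedSectionVars false

namespace Pool.Agent.Helper49B

open Module Polynomial Pool.Agent.Y114.RM Pool.Agent.TH118.SG

section op

variable {V W : Type} [AddCommGroup V] [Module ℂ V] [AddCommGroup W] [Module ℂ W]

/-- Operators attached to an additive function, under an injective linear map. -/
theorem isOp_inj (e : W →ₗ[ℂ] V) (he : Function.Injective e) {g Y : End ℂ V} {g' Y' : End ℂ W}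
    (hg : ∀ x, e (g' x) = g (e x)) (hY : ∀ x, e (Y' x) = Y (e x)) {θ : Additive ℂˣ →+ ℂ}
    (h : IsOp θ g Y) : IsOp θ g' Y' := by
  intro β x hx
  obtain ⟨k, hk⟩ := (Module.End.mem_maxGenEigenspace _ _ _).1 hx
  have h1 : ∀ (k : ℕ) (y : W), e (((g' - β • (1 : End ℂ W)) ^ k) y) =
      ((g - β • (1 : End ℂ V)) ^ k) (e y) := by
    intro k
    induction k with
    | zero => intro y; rfl
    | succ k ih =>
      intro y
      rw [pow_succ, pow_succ, Module.End.mul_apply, Module.End.mul_apply, ih]
      congr 1
      rw [LinearMap.sub_apply, LinearMap.sub_apply, map_sub, hg, LinearMap.smul_apply,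
        LinearMap.smul_apply, Module.End.one_apply, Module.End.one_apply, map_smul]
  have h2 : e x ∈ g.maxGenEigenspace β := by
    rw [Module.End.mem_maxGenEigenspace]
    refine ⟨k, ?_⟩
    rw [← h1, hk, map_zero]
  have h3 := h β (e x) h2
  apply he
  rw [hY, h3, map_smul]

variable [FiniteDimensional ℂ V]

/-- The determinant of `g` on an eigenspace of an operator attached to `g`. -/
theorem eigen_relation (h : Inputs) {θ : Additive ℂˣ →+ ℂ} {g T : End ℂ V}
    (hinj : Function.Injective g) (hop : IsOp θ g T) (μ : ℂ)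
    (hW : ∀ x ∈ End.eigenspace T μ, g x ∈ End.eigenspace T μ) :
    μ * (finrank ℂ (End.eigenspace T μ) : ℂ) = ext0 θ (LinearMap.det (g.restrict hW)) := by
  have hT : ∀ x ∈ End.eigenspace T μ, T x ∈ End.eigenspace T μ := by
    intro x hx
    rw [End.mem_eigenspace_iff.1 hx]
    exact Submodule.smul_mem _ _ hx
  have h1 := (h.res ℂ _ θ g T hinj hop (End.eigenspace T μ)).2 hW hT
  have hinjR : Function.Injective (g.restrict hW) := by
    intro x y hxy
    exact Subtype.ext (hinj (congrArg Subtype.val hxy))
  have h2 := h.tr ℂ _ θ _ _ hinjR h1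
  rw [← h2]
  have h3 : T.restrict hT = μ • (1 : End ℂ (End.eigenspace T μ)) := by
    refine LinearMap.ext fun x => Subtype.ext ?_
    exact End.mem_eigenspace_iff.1 x.2
  rw [h3, map_smul, LinearMap.trace_one, smul_eq_mul]

/-- The determinant on a stable subspace is a product of eigenvalues. -/
theorem det_restrict_roots (g : End ℂ V) (U : Submodule ℂ V) (hU : ∀ x ∈ U, g x ∈ U) :
    ∃ A : Multiset ℂ, Multiset.card A = finrank ℂ U ∧ A ≤ g.charpoly.roots ∧
      LinearMap.det (g.restrict hU) = A.prod := by
  have hsplit : (g.restrict hU).charpoly.Splits := IsAlgClosed.splits _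
  have hCm : (g.restrict hU).charpoly.Monic := LinearMap.charpoly_monic _
  have hdeg : (g.restrict hU).charpoly.natDegree = finrank ℂ U := LinearMap.charpoly_natDegree _
  refine ⟨(g.restrict hU).charpoly.roots, ?_, ?_, ?_⟩
  · rw [← hsplit.natDegree_eq_card_roots, hdeg]
  · have h1 := Pool.Agent.W522.C.charpoly_eq_mul g U hU
    have h2 : g.charpoly.Monic := LinearMap.charpoly_monic _
    apply Polynomial.roots.le_of_dvd h2.ne_zero
    exact Dvd.intro _ h1.symm
  · rw [LinearMap.det_eq_sign_charpoly_coeff, hsplit.coeff_zero_eq_prod_roots_of_monic hCm, hdeg,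
      ← mul_assoc, ← pow_add, ← two_mul, pow_mul, neg_one_sq, one_pow, one_mul]

/-- The determinant of `g P + (1 - P)` for a projector `P` onto the stable subspace `U`. -/
theorem det_proj (g P : End ℂ V) (U : Submodule ℂ V) (hU : ∀ x ∈ U, g x ∈ U)
    (hP : ∀ x, P x ∈ U) (hPU : ∀ x ∈ U, P x = x) :
    LinearMap.det (g * P + (1 - P)) = LinearMap.det (g.restrict hU) := by
  have hst : U ≤ U.comap (g * P + (1 - P)) := by
    intro x hx
    show g (P x) + (x - P x) ∈ U
    rw [hPU x hx, sub_self, add_zero]
    exact hU x hx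
  rw [LinearMap.det_eq_det_mul_det U _ hst]
  have h1 : (g * P + (1 - P)).restrict hst = g.restrict hU := by
    refine LinearMap.ext fun x => Subtype.ext ?_
    show g (P x) + ((x : V) - P x) = g x
    rw [hPU x x.2, sub_self, add_zero]
  have h2 : U.mapQ U (g * P + (1 - P)) hst = 1 := by
    refine LinearMap.ext fun y => ?_
    obtain ⟨x, rfl⟩ := U.mkQ_surjective y
    rw [Submodule.mkQ_apply, Submodule.mapQ_apply, Module.End.one_apply, Submodule.Quotient.eq]
    show g (P x) + (x - P x) - x ∈ U
    have h3 : g (P x) + (x - P x) - x = g (P x) - P x := by abel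
    rw [h3]
    exact U.sub_mem (hU _ (hP x)) (hP x)
  rw [h1, h2, map_one, mul_one]

end op

end Pool.Agent.Helper49B
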