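import Pool.Agent.Helper49B.Op
import Pool.Agent.K3h67.LN.Char
import Pool.Agent.R931.GD.Ram
import Pool.Agent.R931.IR.RatPlace
import Pool.Agent.Y114.RM.Final

/-!
# The determinant characters of the eigenspaces of an operator which commutes with the Galois group
-/

set_option autoImplicit false
set_option linter.unusedSectionVars false

namespace Pool.Agent.Helper49B

open NumberField IsDedekindDomain Module Polynomial Pool.Agent.Y114.RM Pool.Agent.Y114.GF
  Pool.Agent.W569.FM Pool.Agent.W571.FM Pool.Agent.Y115.Chi Pool.Agent.Y115.CQ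
  Pool.Agent.TH118.SG

section mat

variable {F : Type} [Field F] {n : ℕ}

theorem mat_mul {M M' B : Matrix (Fin n) (Fin n) F} (hB : B * B = B) (hM' : B * M' = M' * B) :
    (M * B + (1 - B)) * (M' * B + (1 - B)) = (M * M') * B + (1 - B) := by
  have h1 : B * (1 - B) = 0 := by rw [mul_sub, mul_one, hB, sub_self]
  have h2 : (1 - B) * B = 0 := by rw [sub_mul, one_mul, hB, sub_self]
  have h3 : (1 - B) * (1 - B) = 1 - B := by rw [mul_sub, mul_one, h2, sub_zero]
  rw [add_mul, mul_add, mul_add, h3]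
  have h4 : M * B * (M' * B) = M * M' * B := by
    rw [mul_assoc, ← mul_assoc B, hM', mul_assoc M', hB, ← mul_assoc]
  have h5 : M * B * (1 - B) = 0 := by rw [mul_assoc, h1, mul_zero]
  have h6 : (1 - B) * (M' * B) = 0 := by rw [← hM', ← mul_assoc, h2, zero_mul]
  rw [h4, h5, h6, add_zero, zero_add]

/-- The image of the determinant of `M B + (1 - B)` in the complex numbers. -/
theorem det_map (j : F →+* ℂ) (M B : Matrix (Fin n) (Fin n) F) (U : Submodule ℂ (Fin n → ℂ))
    (hU : ∀ x ∈ U, Matrix.toLin' (M.map j) x ∈ U) (hB : ∀ x, Matrix.toLin' (B.map j) x ∈ U)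
    (hBU : ∀ x ∈ U, Matrix.toLin' (B.map j) x = x) :
    j (M * B + (1 - B)).det = LinearMap.det ((Matrix.toLin' (M.map j)).restrict hU) := by
  rw [← det_proj _ (Matrix.toLin' (B.map j)) U hU hB hBU, RingHom.map_det, RingHom.mapMatrix_apply]
  have h1 : (M * B + (1 - B)).map j = M.map j * B.map j + (1 - B.map j) := by
    rw [← RingHom.mapMatrix_apply, map_add, map_mul, map_sub, map_one]
    rfl
  rw [h1, ← LinearMap.det_toLin', map_add, Matrix.toLin'_mul, map_sub, Matrix.toLin'_one]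
  rfl

end mat

section psi

variable {ℓ : ℕ} [hℓ : Fact ℓ.Prime] {n : ℕ}

/-- The matrix of a group element over the algebraic closure of `ℚ_ℓ`. -/
noncomputable def mt (r : Representation ℚ_[ℓ] (GF ℚ) (Fin n → ℚ_[ℓ])) (g : GF ℚ) :
    Matrix (Fin n) (Fin n) (PadicAlgCl ℓ) :=
  (LinearMap.toMatrix' (r g)).map (algebraMap ℚ_[ℓ] (PadicAlgCl ℓ))

theorem mt_one (r : Representation ℚ_[ℓ] (GF ℚ) (Fin n → ℚ_[ℓ])) : mt r 1 = 1 := by
  rw [mt, map_one, LinearMap.toMatrix'_one, ← RingHom.mapMatrix_apply, map_one]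

theorem mt_mul (r : Representation ℚ_[ℓ] (GF ℚ) (Fin n → ℚ_[ℓ])) (g h : GF ℚ) :
    mt r (g * h) = mt r g * mt r h := by
  rw [mt, map_mul, LinearMap.toMatrix'_mul, ← RingHom.mapMatrix_apply, map_mul]
  rfl

/-- The determinant on the image of the projector `B`. -/
noncomputable def psi0 (r : Representation ℚ_[ℓ] (GF ℚ) (Fin n → ℚ_[ℓ]))
    {B : Matrix (Fin n) (Fin n) (PadicAlgCl ℓ)} (hB : B * B = B)
    (hc : ∀ g, B * mt r g = mt r g * B) : GF ℚ →* PadicAlgCl ℓ where
  toFun g := (mt r g * B + (1 - B)).det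
  map_one' := by
    rw [mt_one, one_mul, add_sub_cancel, Matrix.det_one]
  map_mul' g h := by
    rw [← Matrix.det_mul, mat_mul hB (hc h), mt_mul]

theorem psi0_apply (r : Representation ℚ_[ℓ] (GF ℚ) (Fin n → ℚ_[ℓ]))
    {B : Matrix (Fin n) (Fin n) (PadicAlgCl ℓ)} (hB : B * B = B)
    (hc : ∀ g, B * mt r g = mt r g * B) (g : GF ℚ) :
    psi0 r hB hc g = (mt r g * B + (1 - B)).det := rfl

theorem continuous_psi0 (r : Representation ℚ_[ℓ] (GF ℚ) (Fin n → ℚ_[ℓ]))
    (hr : Continuous fun g => LinearMap.toMatrix' (r g))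
    {B : Matrix (Fin n) (Fin n) (PadicAlgCl ℓ)} (hB : B * B = B)
    (hc : ∀ g, B * mt r g = mt r g * B) : Continuous (psi0 r hB hc) := by
  have h1 : Continuous fun g => mt r g :=
    hr.matrix_map (algebraMapCLM ℚ_[ℓ] (PadicAlgCl ℓ)).continuous
  have h2 : Continuous fun g => (mt r g * B + (1 - B)).det :=
    ((h1.matrix_mul continuous_const).add continuous_const).matrix_det
  exact h2

theorem continuous_units (ψ : GF ℚ →* PadicAlgCl ℓ) (h : Continuous ψ) :
    Continuous ψ.toHomUnits := by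
  rw [Units.continuous_iff]
  refine ⟨h, ?_⟩
  have h2 : (fun g => (((ψ.toHomUnits g)⁻¹ : (PadicAlgCl ℓ)ˣ) : PadicAlgCl ℓ)) =
      fun g => ψ g⁻¹ := by
    funext g
    rw [← map_inv]
    rfl
  rw [h2]
  exact h.comp continuous_inv

end psi

end Pool.Agent.Helper49B
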