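import Pool.Agent.Helper49B.Psi
import Pool.Agent.Y115.Main

/-!
# The determinant characters are powers of the cyclotomic character
-/

set_option autoImplicit false
set_option linter.unusedSectionVars false

namespace Pool.Agent.Helper49B

open NumberField IsDedekindDomain Module Polynomial Pool.Agent.Y114.RM Pool.Agent.Y114.GF
  Pool.Agent.W569.FM Pool.Agent.W571.FM Pool.Agent.Y115.Chi Pool.Agent.Y115.CQ Pool.Agent.Y115.T
  Pool.Agent.TH118.SG Pool.Agent.K3h67.LN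

section psi

variable {ℓ : ℕ} [hℓ : Fact ℓ.Prime] {n : ℕ}

theorem charpoly_mt (r : Representation ℚ_[ℓ] (GF ℚ) (Fin n → ℚ_[ℓ])) (j : PadicAlgCl ℓ →+* ℂ)
    (g : GF ℚ) : (Matrix.toLin' ((mt r g).map j)).charpoly =
      (r g).charpoly.map (j.comp (algebraMap ℚ_[ℓ] (PadicAlgCl ℓ))) := by
  rw [mt, Matrix.map_map, Matrix.charpoly_toLin', ← RingHom.coe_comp, Matrix.charpoly_map,
    ← LinearMap.toMatrix_eq_toMatrix', LinearMap.charpoly_toMatrix]

theorem charpoly_frob (r : Representation ℚ_[ℓ] (GF ℚ) (Fin n → ℚ_[ℓ])) (j : PadicAlgCl ℓ →+* ℂ)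
    (g : GF ℚ) {f : ℚ[X]} (hf : (r g).charpoly = f.map (algebraMap ℚ ℚ_[ℓ])) :
    (Matrix.toLin' ((mt r g).map j)).charpoly = f.map (algebraMap ℚ ℂ) := by
  rw [charpoly_mt, hf, Polynomial.map_map]
  congr 1
  exact Subsingleton.elim _ _

theorem algebraic_root {f : ℚ[X]} {a : ℂ} (ha : a ∈ (f.map (algebraMap ℚ ℂ)).roots) :
    IsAlgebraic ℚ a := by
  have h1 : f ≠ 0 := by
    intro h
    rw [h, Polynomial.map_zero, roots_zero] at ha
    exact absurd ha (Multiset.notMem_zero a)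
  rw [mem_roots'] at ha
  refine ⟨f, h1, ?_⟩
  have h3 := ha.2
  rwa [IsRoot, eval_map_algebraMap] at h3

variable (r : Representation ℚ_[ℓ] (GF ℚ) (Fin n → ℚ_[ℓ]))
  {B : Matrix (Fin n) (Fin n) (PadicAlgCl ℓ)} (hB : B * B = B)
  (hc : ∀ g, B * mt r g = mt r g * B) (j : PadicAlgCl ℓ →+* ℂ) {U : Submodule ℂ (Fin n → ℂ)}

/-- The value of the determinant character is a product of eigenvalues. -/
theorem psi_roots (hBU : ∀ x, Matrix.toLin' (B.map j) x ∈ U)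
    (hUB : ∀ x ∈ U, Matrix.toLin' (B.map j) x = x)
    (g : GF ℚ) (hU : ∀ x ∈ U, Matrix.toLin' ((mt r g).map j) x ∈ U)
    {f : ℚ[X]} (hf : (r g).charpoly = f.map (algebraMap ℚ ℚ_[ℓ])) :
    ∃ A : Multiset ℂ, Multiset.card A = finrank ℂ U ∧ A ≤ (f.map (algebraMap ℚ ℂ)).roots ∧
      j (psi0 r hB hc g) = A.prod := by
  obtain ⟨A, hA, hle, hdet⟩ := det_restrict_roots (Matrix.toLin' ((mt r g).map j)) U hU
  refine ⟨A, hA, ?_, ?_⟩
  · rwa [charpoly_frob r j g hf] at hle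
  · rw [psi0_apply, det_map j _ _ U hU hBU hUB, hdet]

theorem psi_pow (hr : Continuous fun g => LinearMap.toMatrix' (r g))
    (hBU : ∀ x, Matrix.toLin' (B.map j) x ∈ U)
    (hUB : ∀ x ∈ U, Matrix.toLin' (B.map j) x = x)
    (hU : ∀ g, ∀ x ∈ U, Matrix.toLin' ((mt r g).map j) x ∈ U)
    (S : Set (HeightOneSpectrum (𝓞 ℚ))) (hS : S.Finite) (P : HeightOneSpectrum (𝓞 ℚ) → ℚ[X])
    (hP : ∀ v ∉ S, ¬ Above v ℓ → ∀ Q : Ideal (OO ℚ), Q.IsPrime → cm Q = v.asIdeal → ∀ g,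
      FrobAt (Ideal.absNorm v.asIdeal) Q g → (r g⁻¹).charpoly = (P v).map (algebraMap ℚ ℚ_[ℓ])) :
    ∃ (N : ℕ) (a : ℤ), 0 < N ∧
      ∀ g, (psi0 r hB hc g) ^ N = (chiE ℓ (PadicAlgCl ℓ) g : PadicAlgCl ℓ) ^ a := by
  classical
  have hinf := Pool.Agent.R931.GD.infinite_good S hS ℓ
  obtain ⟨t, htsub, ht3⟩ := hinf.exists_subset_card_eq 3
  obtain ⟨e⟩ : Nonempty (Fin 3 ≃ t) := by
    rw [← ht3]
    exact ⟨t.equivFin.symm⟩
  set l : Fin 3 → ℕ := fun i => (e i : ℕ) with hl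
  have hlT : ∀ i, (l i).Prime ∧ l i ≠ ℓ ∧ UnramifiedIn ℚ (l i) ∧ ∀ v, Above v (l i) → v ∉ S :=
    fun i => htsub (e i).2
  choose v hv using fun i => Pool.Agent.R931.IR.exists_above (hlT i).1
  choose Q σ hQ hQv hσ using fun i => frob_cm (v i)
  have hnorm : ∀ i, Ideal.absNorm (v i).asIdeal = l i := fun i =>
    Pool.Agent.R931.IR.absNorm_eq (hlT i).1 (hv i)
  have hpQ : ∀ i, (l i : OO ℚ) ∈ Q i := by
    intro i
    rw [← natCast_mem_cm, hQv]
    exact hv i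
  have hab : ∀ i, ¬ Above (v i) ℓ := fun i h =>
    (hlT i).2.1 (Pool.Agent.R931.GD.above_inj (hlT i).1 hℓ.out (hv i) h)
  obtain ⟨N, a, hN, hNa⟩ := char_bar' ℓ (psi0 r hB hc).toHomUnits
    (continuous_units _ (continuous_psi0 r hr hB hc)) l (fun i => (hlT i).1)
    (fun i i' h => e.injective (Subtype.ext h)) (fun i => (hlT i).2.1) Q
    (fun i => (hQ i).isPrime) hpQ σ (fun i => by
      have h1 := hσ i
      rwa [hnorm i] at h1) (fun i => by
      obtain ⟨A, -, hle, hA⟩ := psi_roots r hB hc j hBU hUB (σ i)⁻¹ (hU _)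
        (hP (v i) ((hlT i).2.2.2 _ (hv i)) (hab i) (Q i) (hQ i).isPrime (hQv i) (σ i) (hσ i))
      have h1 : IsAlgebraic ℚ A.prod := Pool.Agent.Y115.M.isAlgebraic_multiset_prod
        fun a ha => algebraic_root (Multiset.mem_of_le hle ha)
      rw [← hA] at h1
      have h2 := (isAlgebraic_algHom_iff (RingHom.toRatAlgHom j) j.injective).1 h1
      have h3 : psi0 r hB hc (σ i)⁻¹ = (psi0 r hB hc (σ i))⁻¹ := by
        apply eq_inv_of_mul_eq_one_left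
        rw [← map_mul, inv_mul_cancel, map_one]
      rw [h3] at h2
      exact IsAlgebraic.inv_iff.1 h2)
  refine ⟨N, a, hN, fun g => ?_⟩
  have h1 := congrArg (fun u : (PadicAlgCl ℓ)ˣ => (u : PadicAlgCl ℓ)) (hNa g)
  simp only [Units.val_pow_eq_pow_val, Units.val_zpow_eq_zpow_val] at h1
  exact h1

end psi

end Pool.Agent.Helper49B
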