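import Pool.Agent.Helper49B.Diag

/-!
# Subalgebras of maximal rank of Lie algebras of type A
-/

set_option autoImplicit false
set_option linter.unusedSectionVars false

namespace Pool.Agent.Helper49B

open Module Pool.Agent.Y114.RM

/-- Numbers with sum zero and pairwise different differences. -/
theorem exists_generic (N : ℕ) : ∃ h : Fin N → ℂ, ∑ a, h a = 0 ∧
    ∀ a b c d, a ≠ b → h a - h b = h c - h d → a = c ∧ b = d := by
  classical
  let S : Submodule ℂ (Fin N → ℂ) := LinearMap.ker (∑ a, LinearMap.proj (R := ℂ) (φ := fun _ : Fin N => ℂ) a)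
  have hS : ∀ h, h ∈ S ↔ ∑ a, h a = 0 := by
    intro h
    show (∑ a, LinearMap.proj (R := ℂ) (φ := fun _ : Fin N => ℂ) a) h = 0 ↔ _
    rw [LinearMap.sum_apply]
    rfl
  let ι : Type := {x : (Fin N × Fin N) × (Fin N × Fin N) // x.1.1 ≠ x.1.2 ∧ ¬ (x.1 = x.2)}
  let pj : Fin N → ((Fin N → ℂ) →ₗ[ℂ] ℂ) := fun a =>
    LinearMap.proj (R := ℂ) (φ := fun _ : Fin N => ℂ) a
  let φ : ι → (S →ₗ[ℂ] ℂ) := fun x =>
    (pj x.1.1.1 - pj x.1.1.2 - (pj x.1.2.1 - pj x.1.2.2)) ∘ₗ S.subtype
  have hφ : ∀ x, LinearMap.ker (φ x) ≠ ⊤ := by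
    rintro ⟨⟨⟨a, b⟩, ⟨c, d⟩⟩, hab, hne⟩ htop
    simp only at hab
    let ψ : Fin N → ℤ := Pi.single a 1 - Pi.single b 1 - (Pi.single c 1 - Pi.single d 1)
    have hψ0 : ψ ≠ 0 := by
      intro h0
      have ha := congrFun h0 a
      have hb := congrFun h0 b
      simp only [ψ, Pi.sub_apply, Pi.zero_apply, Pi.single_apply] at ha hb
      rw [if_pos trivial, if_neg hab] at ha
      rw [if_neg (Ne.symm hab), if_pos trivial] at hb
      apply hne
      by_cases hac : a = c
      · by_cases hbd : b = d
        · rw [hac, hbd]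
        · rw [if_neg hbd] at hb
          split_ifs at hb <;> omega
      · rw [if_neg hac] at ha
        split_ifs at ha <;> omega
    have hsum : ∑ x, ψ x = 0 := by
      simp only [ψ, Pi.sub_apply, Finset.sum_sub_distrib, Finset.sum_pi_single', Finset.mem_univ,
        if_true]
      ring
    have hmem : (fun x => ((ψ x : ℤ) : ℂ)) ∈ S := by
      rw [hS]
      exact_mod_cast congrArg (Int.cast : ℤ → ℂ) hsum
    have h1 : (⟨_, hmem⟩ : S) ∈ LinearMap.ker (φ ⟨⟨⟨a, b⟩, ⟨c, d⟩⟩, hab, hne⟩) := by
      rw [htop]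
      trivial
    rw [LinearMap.mem_ker] at h1
    have h2 : ((ψ a : ℤ) : ℂ) - (ψ b : ℤ) - ((ψ c : ℤ) - (ψ d : ℤ)) = 0 := h1
    have h3 : ψ a - ψ b - (ψ c - ψ d) = 0 := by exact_mod_cast h2
    have h4 : ∑ x, ψ x * ψ x = ψ a - ψ b - (ψ c - ψ d) := by
      have h5 : ∀ x, ψ x * ψ x = (Pi.single a (ψ a) : Fin N → ℤ) x - (Pi.single b (ψ b) : Fin N → ℤ) x
          - ((Pi.single c (ψ c) : Fin N → ℤ) x - (Pi.single d (ψ d) : Fin N → ℤ) x) := by
        intro x
        have h6 : ψ x * ψ x = ((Pi.single a 1 : Fin N → ℤ) x - (Pi.single b 1 : Fin N → ℤ) x -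
            ((Pi.single c 1 : Fin N → ℤ) x - (Pi.single d 1 : Fin N → ℤ) x)) * ψ x := rfl
        rw [h6]
        simp only [Pi.single_apply]
        by_cases hxa : x = a <;> by_cases hxb : x = b <;> by_cases hxc : x = c <;>
          by_cases hxd : x = d <;> (try simp_all) <;> (try ring)
      rw [Finset.sum_congr rfl fun x _ => h5 x]
      simp only [Finset.sum_sub_distrib, Finset.sum_pi_single', Finset.mem_univ, if_true]
    rw [h3] at h4
    have h7 := (Finset.sum_eq_zero_iff_of_nonneg (fun x _ => mul_self_nonneg (ψ x))).1 h4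
    apply hψ0
    funext x
    exact mul_self_eq_zero.1 (h7 x (Finset.mem_univ x))
  obtain ⟨h, hh⟩ := Submodule.exists_forall_notMem_of_forall_ne_top (fun x => LinearMap.ker (φ x)) hφ
  refine ⟨h.1, (hS _).1 h.2, fun a b c d hab heq => ?_⟩
  by_contra hne
  apply hh ⟨⟨⟨a, b⟩, ⟨c, d⟩⟩, hab, fun h => hne ⟨congrArg Prod.fst h, congrArg Prod.snd h⟩⟩
  rw [LinearMap.mem_ker]
  show h.1 a - h.1 b - (h.1 c - h.1 d) = 0
  rw [heq, sub_self]

section lie

variable {V : Type} [AddCommGroup V] [Module ℂ V] [FiniteDimensional ℂ V] {J : Type}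
  [DecidableEq J] {N : J → ℕ}

/-- Matrices of several sizes. -/
abbrev Mats (N : J → ℕ) : Type := ∀ j, Matrix (Fin (N j)) (Fin (N j)) ℂ

/-- The elementary matrix in one of the factors. -/
noncomputable def el (j : J) (a b : Fin (N j)) : Mats N := Pi.single j (Matrix.single a b 1)

/-- A diagonal matrix in one of the factors. -/
noncomputable def dg (j : J) (h : Fin (N j) → ℂ) : Mats N := Pi.single j (Matrix.diagonal h)

theorem dg_mul_apply (j : J) (h : Fin (N j) → ℂ) (A : Mats N) (a b : Fin (N j)) :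
    (dg j h * A - A * dg j h) j a b = (h a - h b) * A j a b := by
  show (dg j h j * A j - A j * dg j h j) a b = _
  rw [dg, Pi.single_eq_same, Matrix.sub_apply, Matrix.diagonal_mul, Matrix.mul_diagonal]
  ring

theorem dg_mul_ne (j : J) (h : Fin (N j) → ℂ) (A : Mats N) {k : J} (hk : k ≠ j) :
    (dg j h * A - A * dg j h) k = 0 := by
  show dg j h k * A k - A k * dg j h k = 0
  rw [dg, Pi.single_eq_of_ne hk, zero_mul, mul_zero, sub_zero]

/-- A homomorphism of the Lie algebra `G` to a product of matrix algebras, with central kernel, whose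
image contains all families of matrices with trace zero. -/
structure Onto (G : Submodule ℂ (End ℂ V)) (f : End ℂ V →ₗ[ℂ] Mats N) : Prop where
  hom : ∀ X ∈ G, ∀ Y ∈ G, f (X * Y - Y * X) = f X * f Y - f Y * f X
  ker : ∀ X ∈ G, f X = 0 → ∀ Y ∈ G, X * Y = Y * X
  onto : ∀ A : Mats N, (∀ j, (A j).trace = 0) → ∃ X ∈ G, f X = A

variable {G L : Submodule ℂ (End ℂ V)} {f : End ℂ V →ₗ[ℂ] Mats N}

/-- Elements which commute modulo the center with a diagonalizable element. -/
theorem comm_of_mod (hG : IsLie G) (hf : Onto G f) {d : End ℂ V} (hd : d ∈ G)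
    (hdd : ⨆ μ, End.eigenspace (adE d) μ = ⊤) {x : End ℂ V} (hx : x ∈ G)
    (h : f d * f x = f x * f d) : d * x = x * d := by
  have h1 : d * x - x * d ∈ G := hG d hd x hx
  have h2 : f (d * x - x * d) = 0 := by rw [hf.hom d hd x hx, h, sub_self]
  have h3 := hf.ker _ h1 h2 d hd
  have h4 : adE d (adE d x) = 0 := by
    rw [adE_apply, adE_apply, h3, sub_self]
  have h5 := eq_zero_of_sq hdd h4
  rw [adE_apply] at h5
  exact sub_eq_zero.1 h5

/-- Elementary matrices in the image of a subalgebra. -/
theorem star (hL : IsLie L) (hLG : L ≤ G) (hf : Onto G f) {j : J} {h : Fin (N j) → ℂ}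
    (hgen : ∀ a b c d, a ≠ b → h a - h b = h c - h d → a = c ∧ b = d)
    {t : End ℂ V} (ht : t ∈ L) (hft : f t = dg j h) (htd : ⨆ μ, End.eigenspace (adE t) μ = ⊤)
    {a b : Fin (N j)} (hab : a ≠ b) {x : End ℂ V} (hx : x ∈ L) (hfx : f x j a b ≠ 0) :
    ∃ y ∈ L, f y = el j a b ∧ adE t y = (h a - h b) • y := by
  obtain ⟨y, hy, hy1, hy2⟩ := exists_component htd (fun z hz => hL t ht z hz) (h a - h b) hx
  have hft' : ∀ z ∈ L, ∀ μ : ℂ, adE t z = μ • z → ∀ (k : J),
      (dg j h * f z - f z * dg j h) k = μ • f z k := by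
    intro z hz μ hzμ k
    have h1 := hf.hom t (hLG ht) z (hLG hz)
    rw [← hft, ← h1, ← adE_apply, hzμ, map_smul, Pi.smul_apply]
  have hval : f x j a b = f y j a b := by
    refine hy2 (LinearMap.proj b ∘ₗ LinearMap.proj a ∘ₗ LinearMap.proj j ∘ₗ f) ?_
    intro μ hμ z hz hzμ
    have h1 := congrFun (congrFun (hft' z hz μ hzμ j) a) b
    rw [dg_mul_apply, Matrix.smul_apply, smul_eq_mul] at h1
    have h2 : (h a - h b - μ) * f z j a b = 0 := by rw [sub_mul, h1, sub_self]
    rcases mul_eq_zero.1 h2 with h3 | h3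
    · exact absurd (sub_eq_zero.1 h3).symm hμ
    · exact h3
  have hν : h a - h b ≠ 0 := by
    intro h0
    have h1 := hgen a b a a hab (by rw [h0, sub_self])
    exact hab h1.2.symm
  have hfy : f y = (f x j a b) • el j a b := by
    funext k
    by_cases hk : k = j
    · subst hk
      ext a' b'
      have h1 := congrFun (congrFun (hft' y hy _ hy1 k) a') b'
      rw [dg_mul_apply, Matrix.smul_apply, smul_eq_mul] at h1
      rw [Pi.smul_apply, el, Pi.single_eq_same, Matrix.smul_apply, Matrix.single_apply, smul_eq_mul]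
      by_cases hab' : a = a' ∧ b = b'
      · rw [if_pos hab', mul_one, hval, hab'.1, hab'.2]
      · rw [if_neg hab', mul_zero]
        have h2 : (h a' - h b' - (h a - h b)) * f y k a' b' = 0 := by rw [sub_mul, h1, sub_self]
        rcases mul_eq_zero.1 h2 with h3 | h3
        · exact absurd (hgen a b a' b' hab (sub_eq_zero.1 h3).symm) hab'
        · exact h3
    · have h1 := hft' y hy _ hy1 k
      rw [dg_mul_ne j h _ hk] at h1
      rw [Pi.smul_apply, el, Pi.single_eq_of_ne hk, smul_zero]
      exact (smul_eq_zero.1 h1.symm).resolve_left hν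
  refine ⟨(f x j a b)⁻¹ • y, L.smul_mem _ hy, ?_, ?_⟩
  · rw [map_smul, hfy, smul_smul, inv_mul_cancel₀ hfx, one_smul]
  · rw [map_smul, hy1, smul_comm]

theorem el_mul_el (j : J) (a b c : Fin (N j)) : el j a b * el j b c = el (N := N) j a c := by
  funext k
  show el j a b k * el j b c k = el j a c k
  by_cases hk : k = j
  · subst hk
    simp only [el, Pi.single_eq_same]
    rw [Matrix.single_mul_single_same, mul_one]
  · simp only [el, Pi.single_eq_of_ne hk, zero_mul]

theorem el_mul_el_ne (j : J) {a b c d : Fin (N j)} (h : b ≠ c) :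
    el j a b * el (N := N) j c d = 0 := by
  funext k
  show el j a b k * el j c d k = 0
  by_cases hk : k = j
  · subst hk
    simp only [el, Pi.single_eq_same]
    exact Matrix.single_mul_single_of_ne _ _ _ _ h _
  · simp only [el, Pi.single_eq_of_ne hk, zero_mul]

theorem el_apply_self (j : J) (a b : Fin (N j)) : el (N := N) j a b j a b = 1 := by
  rw [el, Pi.single_eq_same, Matrix.single_apply, if_pos ⟨rfl, rfl⟩]

theorem trace_el (j : J) {a b : Fin (N j)} (hab : a ≠ b) (k : J) :
    (el (N := N) j a b k).trace = 0 := by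
  by_cases hk : k = j
  · subst hk
    rw [el, Pi.single_eq_same, Matrix.trace_single_eq_of_ne _ _ _ hab]
  · rw [el, Pi.single_eq_of_ne hk, Matrix.trace_zero]

theorem trace_dg (j : J) {h : Fin (N j) → ℂ} (hh : ∑ a, h a = 0) (k : J) :
    (dg (N := N) j h k).trace = 0 := by
  by_cases hk : k = j
  · subst hk
    rw [dg, Pi.single_eq_same, Matrix.trace_diagonal, hh]
  · rw [dg, Pi.single_eq_of_ne hk, Matrix.trace_zero]

/-- Subalgebras of maximal rank whose center is central are everything, in type A; the case of an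
element with diagonal images. -/
theorem full_diag [Fintype J] (hG : IsLie G) (hL : IsLie L) (hLG : L ≤ G) (hN : NonDeg L)
    (hf : Onto G f) {t : Submodule ℂ (End ℂ V)} (htL : t ≤ L)
    (htd : ∀ a ∈ t, ⨆ μ, End.eigenspace (adE a) μ = ⊤) {d : End ℂ V} (hd : d ∈ t)
    (hcen : ∀ x ∈ G, d * x = x * d → x ∈ t)
    (hz : ∀ z ∈ L, (∀ x ∈ L, z * x = x * z) → ∀ y ∈ G, z * y = y * z)
    (D : ∀ j, Fin (N j) → ℂ) (hfd : f d = fun j => Matrix.diagonal (D j)) : L = G := by
  have hdG : d ∈ G := hLG (htL hd)
  -- elements of the torus with given diagonal images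
  have hdiag : ∀ A : Mats N, (∀ j a b, a ≠ b → A j a b = 0) → f d * A = A * f d := by
    intro A hA
    funext j
    show f d j * A j = A j * f d j
    rw [hfd]
    ext a b
    rw [Matrix.diagonal_mul, Matrix.mul_diagonal]
    by_cases hab : a = b
    · rw [hab, mul_comm]
    · rw [hA j a b hab, mul_zero, zero_mul]
  have hlift : ∀ j (h : Fin (N j) → ℂ), ∑ a, h a = 0 → ∃ z ∈ t, f z = dg j h := by
    intro j h hh
    obtain ⟨z, hz1, hz2⟩ := hf.onto (dg j h) (trace_dg j hh)
    refine ⟨z, hcen z hz1 (comm_of_mod hG hf hdG (htd d hd) hz1 ?_), hz2⟩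
    rw [hz2]
    refine hdiag _ fun k a b hab => ?_
    by_cases hk : k = j
    · subst hk
      rw [dg, Pi.single_eq_same, Matrix.diagonal_apply_ne _ hab]
    · rw [dg, Pi.single_eq_of_ne hk, Matrix.zero_apply]
  have hstar : ∀ j (a b : Fin (N j)), a ≠ b → ∀ x ∈ L, f x j a b ≠ 0 → ∃ y ∈ L, f y = el j a b := by
    intro j a b hab x hx hfx
    obtain ⟨h, hsum, hgen⟩ := exists_generic (N j)
    obtain ⟨s, hs, hfs⟩ := hlift j h hsum
    obtain ⟨y, hy, hy1, -⟩ := star hL hLG hf hgen (htL hs) hfs (htd s hs) hab hx hfx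
    exact ⟨y, hy, hy1⟩
  have hsymm : ∀ j (a b : Fin (N j)), a ≠ b → (∃ y ∈ L, f y = el j a b) →
      ∃ y ∈ L, f y = el j b a := by
    rintro j a b hab ⟨y₀, hy₀, hfy₀⟩
    obtain ⟨h, hsum, hgen⟩ := exists_generic (N j)
    obtain ⟨s, hs, hfs⟩ := hlift j h hsum
    obtain ⟨y, hy, hfy, hsy⟩ := star hL hLG hf hgen (htL hs) hfs (htd s hs) hab hy₀ (by
      rw [hfy₀, el_apply_self]
      exact one_ne_zero)
    have hν : h a - h b ≠ 0 := by
      intro h0
      exact hab (hgen a b a a hab (by rw [h0, sub_self])).2.symm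
    have hy0 : y ≠ 0 := by
      rintro rfl
      have h1 := congrFun (congrFun (congrFun hfy j) a) b
      rw [map_zero, el_apply_self] at h1
      exact zero_ne_one h1
    obtain ⟨u, hu, hu1⟩ : ∃ u ∈ L, LinearMap.trace ℂ V (y * u) ≠ 0 := by
      by_contra hcon
      push Not at hcon
      exact hy0 (hN y hy hcon)
    obtain ⟨v, hv, hv1, hv2⟩ := exists_component (htd s hs) (fun z hz => hL s (htL hs) z hz)
      (-(h a - h b)) hu
    have htr : LinearMap.trace ℂ V (y * v) ≠ 0 := by
      have h1 := hv2 (LinearMap.trace ℂ V ∘ₗ LinearMap.mulLeft ℂ y) (by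
        intro μ hμ z hz hzμ
        show LinearMap.trace ℂ V (y * z) = 0
        have h2 : LinearMap.trace ℂ V (y * adE s z) = -(h a - h b) * LinearMap.trace ℂ V (y * z) := by
          have h3 : y * adE s z = (y * s * z) - y * (z * s) := by
            rw [adE_apply, mul_sub, mul_assoc]
          have h4 : LinearMap.trace ℂ V (y * (z * s)) = LinearMap.trace ℂ V (s * y * z) := by
            rw [← mul_assoc, LinearMap.trace_mul_comm, mul_assoc]
          have h5 : y * s = s * y - (h a - h b) • y := by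
            rw [← hsy, adE_apply, sub_sub_cancel]
          rw [h3, map_sub, h4, h5, sub_mul, map_sub, smul_mul_assoc, map_smul, smul_eq_mul]
          ring
        rw [hzμ, mul_smul_comm, map_smul, smul_eq_mul] at h2
        have h3 : (μ - -(h a - h b)) * LinearMap.trace ℂ V (y * z) = 0 := by
          rw [sub_mul, h2, sub_self]
        rcases mul_eq_zero.1 h3 with h4 | h4
        · exact absurd (sub_eq_zero.1 h4) hμ
        · exact h4)
      have h2 : LinearMap.trace ℂ V (y * u) = LinearMap.trace ℂ V (y * v) := h1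
      rwa [h2] at hu1
    have hv0 : v ≠ 0 := by
      rintro rfl
      rw [mul_zero, map_zero] at htr
      exact htr rfl
    have hfv : f v ≠ 0 := by
      intro h0
      have h1 := hf.ker v (hLG hv) h0 s (hLG (htL hs))
      have h2 : adE s v = 0 := by rw [adE_apply, h1, sub_self]
      rw [hv1] at h2
      rcases smul_eq_zero.1 h2 with h3 | h3
      · exact hν (neg_eq_zero.1 h3)
      · exact hv0 h3
    obtain ⟨k, hk⟩ : ∃ k, f v k ≠ 0 := by
      by_contra hcon
      push Not at hcon
      exact hfv (funext hcon)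
    have hcomm : ∀ k, (dg j h * f v - f v * dg j h) k = -(h a - h b) • f v k := by
      intro k
      have h1 := hf.hom s (hLG (htL hs)) v (hLG hv)
      rw [← hfs, ← h1, ← adE_apply, hv1, map_smul, Pi.smul_apply]
    have hkj : k = j := by
      by_contra hkj
      have h1 := hcomm k
      rw [dg_mul_ne j h _ hkj] at h1
      rcases smul_eq_zero.1 h1.symm with h3 | h3
      · exact hν (neg_eq_zero.1 h3)
      · exact hk h3
    subst hkj
    obtain ⟨a', b', hab'⟩ : ∃ a' b', f v k a' b' ≠ 0 := by
      by_contra hcon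
      push Not at hcon
      exact hk (Matrix.ext fun a b => hcon a b)
    have h1 := congrFun (congrFun (hcomm k) a') b'
    rw [dg_mul_apply, Matrix.smul_apply, smul_eq_mul] at h1
    have h2 : h a' - h b' = -(h a - h b) := mul_right_cancel₀ hab' h1
    obtain ⟨rfl, rfl⟩ := hgen b a a' b' hab.symm (by rw [h2]; ring)
    exact hstar k b a hab.symm v hv hab'
  have htrans : ∀ j (a b c : Fin (N j)), a ≠ b → b ≠ c → a ≠ c → (∃ y ∈ L, f y = el j a b) →
      (∃ y ∈ L, f y = el j b c) → ∃ y ∈ L, f y = el j a c := by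
    rintro j a b c hab hbc hac ⟨y, hy, hfy⟩ ⟨y', hy', hfy'⟩
    refine ⟨y * y' - y' * y, hL y hy y' hy', ?_⟩
    rw [hf.hom y (hLG hy) y' (hLG hy'), hfy, hfy', el_mul_el, el_mul_el_ne j hac.symm, sub_zero]
  -- all elementary matrices
  have hall : ∀ j (a b : Fin (N j)), a ≠ b → ∃ y ∈ L, f y = el j a b := by
    intro j a₀ b₀ hab₀
    by_contra hcon
    classical
    let R : Fin (N j) → Prop := fun a => a = a₀ ∨ ∃ y ∈ L, f y = el j a₀ a
    have hR : ∀ a b, a ≠ b → (∃ y ∈ L, f y = el j a b) → (R a ↔ R b) := by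
      intro a b hab hy
      have key : ∀ a b, a ≠ b → (∃ y ∈ L, f y = el j a b) → R a → R b := by
        intro a b hab hy ha
        by_cases hb : b = a₀
        · exact Or.inl hb
        · rcases ha with rfl | ha
          · exact Or.inr hy
          · by_cases haa : a = a₀
            · subst haa
              exact Or.inr hy
            · exact Or.inr (htrans j a₀ a b (fun h => haa h.symm) hab (fun h => hb h.symm) ha hy)
      exact ⟨key a b hab hy, key b a hab.symm (hsymm j a b hab hy)⟩
    have hN0 : (N j : ℂ) ≠ 0 := by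
      have h1 : 0 < N j := lt_of_le_of_lt (Nat.zero_le _) a₀.2
      exact_mod_cast h1.ne'
    let c : ℂ := (∑ a, if R a then (1 : ℂ) else 0) / N j
    let h : Fin (N j) → ℂ := fun a => (if R a then (1 : ℂ) else 0) - c
    have hsum : ∑ a, h a = 0 := by
      simp only [h, Finset.sum_sub_distrib, Finset.sum_const, Finset.card_univ, Fintype.card_fin,
        nsmul_eq_mul, c]
      rw [mul_div_cancel₀ _ hN0, sub_self]
    obtain ⟨s, hs, hfs⟩ := hlift j h hsum
    have hcs : ∀ x ∈ L, s * x = x * s := by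
      intro x hx
      refine comm_of_mod hG hf (hLG (htL hs)) (htd s hs) (hLG hx) ?_
      rw [hfs, ← sub_eq_zero]
      funext k
      by_cases hk : k = j
      · subst hk
        ext a b
        rw [dg_mul_apply]
        show _ = (0 : ℂ)
        by_cases hab : a = b
        · rw [hab, sub_self, zero_mul]
        · by_cases hx0 : f x k a b = 0
          · rw [hx0, mul_zero]
          · have h1 := hR a b hab (hstar k a b hab x hx hx0)
            have h2 : h a = h b := by
              simp only [h]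
              by_cases ha : R a
              · rw [if_pos ha, if_pos (h1.1 ha)]
              · rw [if_neg ha, if_neg (fun hb => ha (h1.2 hb))]
            rw [h2, sub_self, zero_mul]
      · rw [dg_mul_ne j h _ hk]
        rfl
    have hcG := hz s (htL hs) hcs
    obtain ⟨w, hw, hfw⟩ := hf.onto (el j a₀ b₀) (trace_el j hab₀)
    have h1 := hf.hom s (hLG (htL hs)) w hw
    rw [hcG w hw, sub_self, map_zero, hfs, hfw] at h1
    have h2 := congrFun (congrFun (congrFun h1 j) a₀) b₀
    rw [dg_mul_apply, el_apply_self, mul_one] at h2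
    have h3 : (0 : ℂ) = h a₀ - h b₀ := h2
    have hb₀ : ¬ R b₀ := by
      rintro (h4 | h4)
      · exact hab₀ h4.symm
      · exact hcon h4
    simp only [h] at h3
    rw [if_pos (Or.inl rfl : R a₀), if_neg hb₀] at h3
    norm_num at h3
  choose! y hyL hfy using hall
  refine le_antisymm hLG fun x hx => ?_
  classical
  let x' : End ℂ V := x - ∑ j, ∑ a, ∑ b, if a = b then 0 else f x j a b • y j a b
  have hsumL : ∑ j, ∑ a, ∑ b, (if a = b then 0 else f x j a b • y j a b) ∈ L := by
    refine L.sum_mem fun j _ => L.sum_mem fun a _ => L.sum_mem fun b _ => ?_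
    split_ifs with hab
    · exact L.zero_mem
    · exact L.smul_mem _ (hyL j a b hab)
  have hx' : x' ∈ G := G.sub_mem hx (hLG hsumL)
  have hfx' : ∀ k a b, a ≠ b → f x' k a b = 0 := by
    intro k a b hab
    have h1 : ∀ (j : J) (c e : Fin (N j)), (f (if c = e then 0 else f x j c e • y j c e)) =
        if c = e then 0 else f x j c e • el j c e := by
      intro j c e
      split_ifs with hce
      · exact map_zero f
      · rw [map_smul, hfy j c e hce]
    simp only [x', map_sub, map_sum, h1]
    rw [Pi.sub_apply, Matrix.sub_apply, Finset.sum_apply, Matrix.sum_apply,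
      Finset.sum_eq_single k]
    · rw [Finset.sum_apply, Matrix.sum_apply, Finset.sum_eq_single a, Finset.sum_apply,
        Matrix.sum_apply, Finset.sum_eq_single b, if_neg hab, Pi.smul_apply, Matrix.smul_apply,
        el_apply_self, smul_eq_mul, mul_one, sub_self]
      · intro e _ he
        split_ifs with hae
        · rfl
        · rw [Pi.smul_apply, Matrix.smul_apply, el, Pi.single_eq_same, Matrix.single_apply,
            if_neg (fun h => he h.2), smul_zero]
      · intro h; exact absurd (Finset.mem_univ b) h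
      · intro c _ hc
        rw [Finset.sum_apply, Matrix.sum_apply]
        refine Finset.sum_eq_zero fun e _ => ?_
        split_ifs with hce
        · rfl
        · rw [Pi.smul_apply, Matrix.smul_apply, el, Pi.single_eq_same, Matrix.single_apply,
            if_neg (fun h => hc h.1), smul_zero]
      · intro h; exact absurd (Finset.mem_univ a) h
    · intro j _ hj
      rw [Finset.sum_apply, Matrix.sum_apply]
      refine Finset.sum_eq_zero fun c _ => ?_
      rw [Finset.sum_apply, Matrix.sum_apply]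
      refine Finset.sum_eq_zero fun e _ => ?_
      split_ifs with hce
      · rfl
      · rw [Pi.smul_apply, Matrix.smul_apply, el, Pi.single_eq_of_ne (fun h => hj h.symm),
          Matrix.zero_apply, smul_zero]
    · intro h; exact absurd (Finset.mem_univ k) h
  have h1 := hcen x' hx' (comm_of_mod hG hf hdG (htd d hd) hx' (hdiag _ hfx'))
  have h2 : x = x' + ∑ j, ∑ a, ∑ b, (if a = b then 0 else f x j a b • y j a b) := by
    simp only [x', sub_add_cancel]
  rw [h2]
  exact L.add_mem (htL h1) hsumL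

end lie

end Pool.Agent.Helper49B
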